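import Pool.Agent.PSV.Defs

/-! PSV, N2 uniform: the admissible families and rational structures. -/

set_option autoImplicit false

namespace Pool.Agent.PSV.H74

open Matrix Polynomial Pool.Agent.MT100D

/-- The number `x` is a root of a nonzero polynomial of degree at most `n` whose coefficients are
polynomials of total degree at most `n` in the numbers `c l`, with rational coefficients (of any
size). -/
def AlgB (n : ℕ) {m : ℕ} (c : Fin m → ℂ) (x : ℂ) : Prop :=
  ∃ f : Polynomial (MvPolynomial (Fin m) ℚ), f.natDegree ≤ n ∧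
    (∀ i, (f.coeff i).totalDegree ≤ n) ∧
    f.map (MvPolynomial.aeval c : MvPolynomial (Fin m) ℚ →ₐ[ℚ] ℂ).toRingHom ≠ 0 ∧
    f.eval₂ (MvPolynomial.aeval c : MvPolynomial (Fin m) ℚ →ₐ[ℚ] ℂ).toRingHom x = 0

/-- The family `F` has size at most `(n, B)` (`Siz`: rank and degrees at most `n`, all constants at most
`B`), the denominators of the exponents are at most `n`, `P` is invertible and, up to a common factor `s`,
its entries are algebraic over `m₀` numbers `c l` with all degrees at most `n` (`AlgB`), where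
`m₀ + [N ≠ 0] ≤ m`. -/
structure Adm {d : Type} [Fintype d] [DecidableEq d] (n m B : ℕ) (F : Family d)
    (P : Matrix d d ℂ) : Prop where
  size : Siz n B F.H F.K F.N F.δ F.q F.B
  den : ∀ i, (F.δ i).den ≤ n
  unit : IsUnit P.det
  cst : ∃ (m₀ : ℕ) (c : Fin m₀ → ℂ) (s : ℂ), m₀ + (if F.N = 0 then 0 else 1) ≤ m ∧ s ≠ 0 ∧
    ∀ i j, AlgB n c (s * P i j)

end Pool.Agent.PSV.H74
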