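import Pool.Agent.PSV.StmtsS
import Pool.Agent.Helper74_PSV.Def
import Pool.Agent.Helper74_MTN.Ger2

/-! PSV, N2 uniform: germs of numbers which are algebraic of bounded degree over varying constants; the
germ of the matrix `P R(w)⁻ᵀ` for varying families. -/

set_option autoImplicit false

namespace Pool.Agent.PSV.H74

open scoped IntermediateField.algebraAdjoinAdjoin
open Filter Matrix IntermediateField Pool.Agent.MT100 Pool.Agent.MT100G Pool.Agent.MT100A
  Pool.Agent.MT100D Pool.Agent.MTN.H74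

/-- `AlgB` with explicit coefficients -/
def AlgQ (n : ℕ) {m : ℕ} (c : Fin m → ℂ) (x : ℂ) : Prop :=
  ∃ q : Fin (n + 1) → (Fin m → Fin (n + 1)) → ℚ,
    (∃ i, ∑ α, (q i α : ℂ) * ∏ l, c l ^ (α l : ℕ) ≠ 0) ∧
    ∑ i, (∑ α, (q i α : ℂ) * ∏ l, c l ^ (α l : ℕ)) * x ^ (i : ℕ) = 0

/-- evaluation of a polynomial of total degree at most `n` -/
theorem aeval_low {n m : ℕ} (c : Fin m → ℂ) (g : MvPolynomial (Fin m) ℚ)
    (hg : g.totalDegree ≤ n) : MvPolynomial.aeval c g =
      ∑ α : Fin m → Fin (n + 1), ((g.coeff (Finsupp.equivFunOnFinite.symm fun l => (α l : ℕ)) :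
        ℚ) : ℂ) * ∏ l, c l ^ (α l : ℕ) := by
  classical
  let ι : (Fin m → Fin (n + 1)) → (Fin m →₀ ℕ) := fun α =>
    Finsupp.equivFunOnFinite.symm fun l => (α l : ℕ)
  have hinj : Function.Injective ι := by
    intro α β h
    funext l
    have h1 := DFunLike.congr_fun h l
    exact Fin.ext h1
  rw [MvPolynomial.aeval_def, MvPolynomial.eval₂_eq']
  have h1 : ∑ α : Fin m → Fin (n + 1), ((g.coeff (ι α) : ℚ) : ℂ) * ∏ l, c l ^ (α l : ℕ) =
      ∑ s ∈ Finset.univ.image ι, ((g.coeff s : ℚ) : ℂ) * ∏ l, c l ^ s l := by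
    rw [Finset.sum_image fun a _ b _ h => hinj h]
    rfl
  refine Eq.trans ?_ h1.symm
  refine Finset.sum_subset ?_ ?_
  · intro s hs
    rw [Finset.mem_image]
    have h2 : ∀ l, s l ≤ n := by
      intro l
      have h3 : s.sum (fun _ e => e) ≤ g.totalDegree := MvPolynomial.le_totalDegree hs
      refine le_trans ?_ (h3.trans hg)
      by_cases hl : s l = 0
      · rw [hl]
        exact Nat.zero_le _
      · rw [Finsupp.sum]
        exact Finset.single_le_sum (f := fun l => s l) (fun _ _ => Nat.zero_le _)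
          (Finsupp.mem_support_iff.2 hl)
    refine ⟨fun l => ⟨s l, Nat.lt_succ_of_le (h2 l)⟩, Finset.mem_univ _, ?_⟩
    ext l
    rfl
  · intro s _ hs
    rw [MvPolynomial.notMem_support_iff.1 hs]
    simp

theorem AlgB.toQ {n m : ℕ} {c : Fin m → ℂ} {x : ℂ} (h : AlgB n c x) : AlgQ n c x := by
  obtain ⟨f, hf1, hf2, hf3, hf4⟩ := h
  refine ⟨fun i α => (f.coeff i).coeff (Finsupp.equivFunOnFinite.symm fun l => (α l : ℕ)), ?_, ?_⟩
  · by_contra hno
    push Not at hno
    refine hf3 (Polynomial.ext fun i => ?_)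
    rw [Polynomial.coeff_map, Polynomial.coeff_zero]
    by_cases hi : i ≤ n
    · have h1 := hno ⟨i, Nat.lt_succ_of_le hi⟩
      rw [← aeval_low c (f.coeff i) (hf2 i)] at h1
      exact h1
    · rw [Polynomial.coeff_eq_zero_of_natDegree_lt (by omega), map_zero]
  · rw [← hf4, Polynomial.eval₂_eq_sum_range' _ (Nat.lt_succ_of_le hf1), Finset.sum_range]
    refine Finset.sum_congr rfl fun i _ => ?_
    rw [← aeval_low c (f.coeff i) (hf2 i)]
    rfl

theorem AlgB.mono {n n' m : ℕ} {c : Fin m → ℂ} {x : ℂ} (h : AlgB n c x) (hn : n ≤ n') :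
    AlgB n' c x := by
  obtain ⟨f, hf1, hf2, hf3⟩ := h
  exact ⟨f, hf1.trans hn, fun i => (hf2 i).trans hn, hf3⟩

/-- Every number which is algebraic over the field generated by the `c l` satisfies `AlgB`. -/
theorem exists_algB {m : ℕ} (c : Fin m → ℂ) {x : ℂ}
    (h : IsAlgebraic (IntermediateField.adjoin ℚ (Set.range c)) x) : ∃ n, AlgB n c x := by
  classical
  have h1 : IsAlgebraic (Algebra.adjoin ℚ (Set.range c)) x :=
    (IsFractionRing.isAlgebraic_iff (Algebra.adjoin ℚ (Set.range c))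
      (IntermediateField.adjoin ℚ (Set.range c)) ℂ).2 h
  obtain ⟨p, hp, hpx⟩ := h1
  have hmem : ∀ g : MvPolynomial (Fin m) ℚ,
      MvPolynomial.aeval c g ∈ Algebra.adjoin ℚ (Set.range c) := by
    intro g
    rw [Algebra.adjoin_range_eq_range_aeval]
    exact ⟨g, rfl⟩
  let φ : MvPolynomial (Fin m) ℚ →ₐ[ℚ] Algebra.adjoin ℚ (Set.range c) :=
    (MvPolynomial.aeval c : MvPolynomial (Fin m) ℚ →ₐ[ℚ] ℂ).codRestrict _ hmem
  have hφ : Function.Surjective φ := by
    rintro ⟨y, hy⟩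
    rw [Algebra.adjoin_range_eq_range_aeval] at hy
    obtain ⟨g, hg⟩ := hy
    exact ⟨g, Subtype.ext hg⟩
  obtain ⟨f, hf⟩ := Polynomial.map_surjective φ.toRingHom hφ p
  have hcomp : (MvPolynomial.aeval c : MvPolynomial (Fin m) ℚ →ₐ[ℚ] ℂ).toRingHom =
      (algebraMap (Algebra.adjoin ℚ (Set.range c)) ℂ).comp φ.toRingHom := rfl
  refine ⟨max f.natDegree (f.support.sup fun i => (f.coeff i).totalDegree), f, le_max_left _ _,
    fun i => ?_, ?_, ?_⟩
  · by_cases hi : i ∈ f.support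
    · exact le_trans (Finset.le_sup (f := fun i => (f.coeff i).totalDegree) hi) (le_max_right _ _)
    · rw [Polynomial.notMem_support_iff.1 hi, MvPolynomial.totalDegree_zero]
      exact Nat.zero_le _
  · rw [hcomp, ← Polynomial.map_map, hf]
    exact (Polynomial.map_ne_zero_iff (FaithfulSMul.algebraMap_injective
      (Algebra.adjoin ℚ (Set.range c)) ℂ)).2 hp
  · rw [hcomp, ← Polynomial.eval₂_map, hf]
    exact hpx

/-- change of the index type of the constants -/
theorem AlgQ.cast {n m0 : ℕ} {c : Fin m0 → ℂ} {x : ℂ} (h : AlgQ n c x) {m1 : ℕ} (hm : m0 = m1) :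
    AlgQ n (fun l : Fin m1 => if h : (l : ℕ) < m0 then c ⟨l, h⟩ else 0) x := by
  subst hm
  have e : (fun l : Fin m0 => if h : (l : ℕ) < m0 then c ⟨l, h⟩ else 0) = c := by
    funext l
    rw [dif_pos l.2]
  rw [e]
  exact h

variable {X : Type} {φ : Ultrafilter X}

/-- the germ of numbers which are algebraic of bounded degree over `c` -/
theorem algB_mem {n m m' : ℕ} (c : Fin m → X → ℂ) (c' : Fin m' → GK φ)
    (hc : ∀ l, pg φ (c l) ∈ Set.range c') (x : X → ℂ)
    (h : ∀ᶠ j in (φ : Filter X), AlgQ n (fun l => c l j) (x j)) : pg φ x ∈ AC c' := by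
  classical
  have h1 : ∀ j : X, ∃ q : Fin (n + 1) → (Fin m → Fin (n + 1)) → ℚ,
      AlgQ n (fun l => c l j) (x j) →
      (∃ i, ∑ α, (q i α : ℂ) * ∏ l, c l j ^ (α l : ℕ) ≠ 0) ∧
      ∑ i, (∑ α, (q i α : ℂ) * ∏ l, c l j ^ (α l : ℕ)) * x j ^ (i : ℕ) = 0 := by
    intro j
    by_cases hj : AlgQ n (fun l => c l j) (x j)
    · obtain ⟨q, hq⟩ := hj
      exact ⟨q, fun _ => hq⟩
    · exact ⟨0, fun h => absurd h hj⟩
  choose q hq using h1
  -- the coefficients
  let s : Fin (n + 1) → X → ℂ := fun i j => ∑ α, (q j i α : ℂ) * ∏ l, c l j ^ (α l : ℕ)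
  have hs : ∀ i, pg φ (s i) ∈ adjoin (kk φ) (Set.range c') := by
    intro i
    have e1 : s i = ∑ α : Fin m → Fin (n + 1), (fun j => (q j i α : ℂ)) * ∏ l, c l ^ (α l : ℕ) := by
      funext j
      simp only [s, Finset.sum_apply, Pi.mul_apply, Finset.prod_apply, Pi.pow_apply]
    rw [e1, map_sum]
    refine sum_mem fun α _ => ?_
    rw [map_mul, map_prod]
    refine mul_mem ?_ (prod_mem fun l _ => ?_)
    · exact (adjoin (kk φ) (Set.range c')).algebraMap_mem ⟨_, ⟨fun j => q j i α, rfl⟩⟩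
    · rw [map_pow]
      exact pow_mem (subset_adjoin _ _ (hc l)) _
  let a : Fin (n + 1) → adjoin (kk φ) (Set.range c') := fun i => ⟨pg φ (s i), hs i⟩
  let p : Polynomial (adjoin (kk φ) (Set.range c')) :=
    ∑ i : Fin (n + 1), Polynomial.C (a i) * Polynomial.X ^ (i : ℕ)
  have hpc : ∀ i : Fin (n + 1), p.coeff (i : ℕ) = a i := by
    intro i
    simp only [p, Polynomial.finsetSum_coeff, Polynomial.coeff_C_mul, Polynomial.coeff_X_pow]
    rw [Finset.sum_eq_single i]
    · rw [if_pos rfl, mul_one]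
    · intro b _ hb
      rw [if_neg (fun h => hb (Fin.ext h.symm)), mul_zero]
    · intro h
      exact absurd (Finset.mem_univ i) h
  rw [mem_AC]
  refine ⟨p, ?_, ?_⟩
  · intro hp
    have h2 : ∀ i : Fin (n + 1), ∀ᶠ j in (φ : Filter X), s i j = 0 := by
      intro i
      have h3 := hpc i
      rw [hp, Polynomial.coeff_zero] at h3
      have h4 : pg φ (s i) = 0 := (congrArg Subtype.val h3).symm
      exact pg_zero.1 h4
    obtain ⟨j, hj1, hj2⟩ := ((eventually_all.2 h2).and h).exists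
    obtain ⟨i, hi⟩ := (hq j hj2).1
    exact hi (hj1 i)
  · have h2 : Polynomial.aeval (pg φ x) p =
        pg φ (∑ i : Fin (n + 1), s i * x ^ (i : ℕ)) := by
      rw [map_sum]
      simp only [map_sum, map_mul, map_pow, Polynomial.aeval_C, Polynomial.aeval_X]
      rfl
    rw [h2, pg_zero]
    filter_upwards [h] with j hj
    rw [Finset.sum_apply]
    exact (hq j hj).2

/-- an integral power of an algebraic number of degree at most `e` has degree at most `e` -/
theorem zpow_deg {z : ℂ} {e : ℕ} (h : ∃ f : Polynomial ℤ, f ≠ 0 ∧ f.natDegree ≤ e ∧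
    Polynomial.aeval z f = 0) (k : ℤ) : ∃ f : Polynomial ℤ, f ≠ 0 ∧ f.natDegree ≤ e ∧
    Polynomial.aeval (z ^ k) f = 0 := by
  obtain ⟨f, hf, hfd, hfz⟩ := h
  have hq0 : (f.map (algebraMap ℤ ℚ)) ≠ 0 :=
    (Polynomial.map_ne_zero_iff (algebraMap ℤ ℚ).injective_int).2 hf
  have hqz : Polynomial.aeval z (f.map (algebraMap ℤ ℚ)) = 0 := by
    rw [Polynomial.aeval_map_algebraMap]
    exact hfz
  have hi : IsIntegral ℚ z := isAlgebraic_iff_isIntegral.1 ⟨_, hq0, hqz⟩
  have hd : (minpoly ℚ z).natDegree ≤ e := by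
    refine (Polynomial.natDegree_le_natDegree (minpoly.degree_le_of_ne_zero ℚ z hq0 hqz)).trans ?_
    exact Polynomial.natDegree_map_le.trans hfd
  have : FiniteDimensional ℚ ℚ⟮z⟯ := adjoin.finiteDimensional hi
  have hz : z ^ k ∈ ℚ⟮z⟯ := zpow_mem (mem_adjoin_simple_self ℚ z) k
  have h1 : (minpoly ℚ (z ^ k)).natDegree ≤ e := by
    have h2 : (minpoly ℚ (⟨z ^ k, hz⟩ : ℚ⟮z⟯)).natDegree ≤ e := by
      refine (minpoly.natDegree_le _).trans ?_
      rw [adjoin.finrank hi]
      exact hd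
    exact (IntermediateField.minpoly_eq (⟨z ^ k, hz⟩ : ℚ⟮z⟯)) ▸ h2
  have hik : IsIntegral ℚ (z ^ k) := by
    have h3 : IsIntegral ℚ (⟨z ^ k, hz⟩ : ℚ⟮z⟯) := IsIntegral.of_finite ℚ _
    exact h3.map (IsScalarTower.toAlgHom ℚ ℚ⟮z⟯ ℂ)
  refine ⟨IsLocalization.integerNormalization (nonZeroDivisors ℤ) (minpoly ℚ (z ^ k)), ?_, ?_, ?_⟩
  · rw [Ne, IsLocalization.integerNormalization_eq_zero_iff le_rfl]
    exact minpoly.ne_zero hik
  · refine le_trans ?_ h1
    refine Polynomial.natDegree_le_iff_coeff_eq_zero.2 fun i hi' => ?_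
    by_contra hne
    have h4 := IsLocalization.integerNormalization_support (nonZeroDivisors ℤ)
      (minpoly ℚ (z ^ k)) (Polynomial.mem_support_iff.2 hne)
    exact absurd (Polynomial.le_natDegree_of_mem_supp i h4) (by omega)
  · exact IsLocalization.integerNormalization_aeval_eq_zero (nonZeroDivisors ℤ) _
      (minpoly.aeval ℚ (z ^ k))

/-- the germ of `w ^ (-q)`, bounded denominators -/
theorem exp_mem' {pt : X → ℂ} (h : BdDeg φ pt) (h0 : ∀ᶠ x in (φ : Filter X), pt x ≠ 0) {m : ℕ}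
    (c : Fin m → GK φ) (q : X → ℚ) (D : ℕ)
    (hD : 0 < D) (hq : ∀ᶠ x in (φ : Filter X), ∃ k : ℤ, (D : ℚ) * q x = k) :
    pg φ (fun x => Complex.exp ((q x : ℂ) * -Complex.log (pt x))) ∈ AC c := by
  classical
  have h1 : ∀ x : X, ∃ k : ℤ, (∃ k : ℤ, (D : ℚ) * q x = k) → (D : ℚ) * q x = k := by
    intro x
    by_cases hx : ∃ k : ℤ, (D : ℚ) * q x = k
    · obtain ⟨k, hk⟩ := hx
      exact ⟨k, fun _ => hk⟩
    · exact ⟨0, fun h => absurd h hx⟩
  choose k hk using h1
  -- the power of the point is a number of bounded degree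
  have hz : BdDeg φ (fun x => pt x ^ (-k x)) := by
    obtain ⟨e, he⟩ := h
    refine ⟨e, ?_⟩
    filter_upwards [he] with x hx
    exact zpow_deg hx _
  have h2 : (pg φ (fun x => Complex.exp ((q x : ℂ) * -Complex.log (pt x)))) ^ D =
      pg φ (fun x => pt x ^ (-k x)) := by
    rw [← map_pow, pg_eq]
    filter_upwards [h0, hq] with x hx hqx
    rw [Pi.pow_apply, ← Complex.exp_nat_mul]
    have h3 : (D : ℂ) * ((q x : ℂ) * -Complex.log (pt x)) = ((-k x : ℤ) : ℂ) *
        Complex.log (pt x) := by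
      have h4 : (D : ℂ) * (q x : ℂ) = (k x : ℂ) := by
        exact_mod_cast congrArg (fun x : ℚ => (x : ℂ)) (hk x hqx)
      push_cast
      linear_combination (-Complex.log (pt x)) * h4
    rw [h3, Complex.exp_int_mul, Complex.exp_log hx]
  have h3 : (pg φ (fun x => Complex.exp ((q x : ℂ) * -Complex.log (pt x)))) ^ D ∈ AC c := by
    rw [h2]
    exact pt_mem hz c
  rw [mem_AC] at h3 ⊢
  exact h3.of_pow hD

/-- the germ of an entry of the exponential, for varying matrices -/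
theorem eN_mem' {pt : X → ℂ} {d : Type} [Fintype d] [DecidableEq d] (N : X → Matrix d d ℤ) {m : ℕ}
    (c : Fin m → GK φ)
    (h : (∀ᶠ x in (φ : Filter X), N x = 0) ∨ pg φ (fun x => Complex.log (pt x)) ∈ Set.range c)
    (i j : d) :
    pg φ (fun x => (eN (N x) (-Complex.log (pt x)) : Matrix d d ℂ) i j) ∈ AC c := by
  have e1 : (fun x => (eN (N x) (-Complex.log (pt x)) : Matrix d d ℂ) i j) =
      ∑ t ∈ Finset.range (Fintype.card d), (fun _ : X => (((t.factorial : ℚ)⁻¹ : ℚ) : ℂ)) *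
        ((fun x => -Complex.log (pt x)) ^ t * (fun x : X => (((N x ^ t) i j : ℤ) : ℂ))) := by
    funext n
    rw [Finset.sum_apply]
    unfold eN
    rw [Matrix.sum_apply]
    refine Finset.sum_congr rfl fun t _ => ?_
    rw [Matrix.smul_apply, Matrix.map_apply, smul_eq_mul, Pi.mul_apply, Pi.mul_apply,
      Pi.pow_apply, Algebra.smul_def, mul_assoc]
    rfl
  rw [e1, map_sum]
  refine sum_mem fun t _ => ?_
  rw [map_mul, map_mul, map_pow]
  have hr : ∀ q : X → ℚ, pg φ (fun x => (q x : ℂ)) ∈ AC c := fun q => kk_AC c ⟨q, rfl⟩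
  refine mul_mem (hr _) ?_
  rcases h with hN | hL
  · rcases Nat.eq_zero_or_pos t with h0 | h0
    · subst h0
      rw [pow_zero, one_mul]
      have := hr (fun x => (((N x ^ 0) i j : ℤ) : ℚ))
      simpa using this
    · have : pg φ (fun x : X => (((N x ^ t) i j : ℤ) : ℂ)) = 0 := by
        rw [pg_zero]
        filter_upwards [hN] with x hx
        rw [hx, zero_pow h0.ne']
        simp
      rw [this, mul_zero]
      exact zero_mem _
  · refine mul_mem (pow_mem ?_ _) ?_
    · have e2 : (fun x => -Complex.log (pt x)) = -(fun x => Complex.log (pt x)) := rfl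
      rw [e2, map_neg]
      exact neg_mem (adj_AC (subset_adjoin _ _ hL))
    · have := hr (fun x => (((N x ^ t) i j : ℤ) : ℚ))
      simpa using this

/-- UAL, for varying families: there are `m` germs over which `P R(w)⁻ᵀ` is algebraic -/
theorem ualU {pt : X → ℂ} (hd : BdDeg φ pt) (h0 : ∀ᶠ x in (φ : Filter X), pt x ≠ 0)
    {d : Type} [Fintype d] [DecidableEq d] (F : X → Family d) (P : X → Matrix d d ℂ) {n δ : ℕ}
    (hn : ∀ᶠ x in (φ : Filter X), ∀ i, ((F x).δ i).den ≤ n) (c : Fin δ → X → ℂ)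
    (hP : ∀ᶠ x in (φ : Filter X), ∀ i j, AlgQ n (fun l => c l x) (P x i j))
    {m : ℕ} (hm : (∀ᶠ x in (φ : Filter X), (F x).N = 0) ∨ δ + 1 ≤ m) (hδ : δ ≤ m) :
    ∃ c' : Fin m → GK φ, ∀ i j, IsAlgebraic (adjoin (kk φ) (Set.range c'))
      (pg φ (fun x => (P x * (((F x).R (pt x))⁻¹)ᵀ) i j)) := by
  let c' : Fin m → GK φ := fun j =>
    if h : (j : ℕ) < δ then pg φ (c ⟨j, h⟩) else pg φ (fun x => Complex.log (pt x))
  have h1 : ∀ i, pg φ (c i) ∈ Set.range c' := by
    intro i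
    refine ⟨⟨i, by have := i.2; omega⟩, ?_⟩
    simp only [c']
    rw [dif_pos i.2]
  have h2 : (∀ᶠ x in (φ : Filter X), (F x).N = 0) ∨
      pg φ (fun x => Complex.log (pt x)) ∈ Set.range c' := by
    rcases hm with hm | hm
    · exact Or.inl hm
    · refine Or.inr ⟨⟨δ, by omega⟩, ?_⟩
      simp only [c']
      rw [dif_neg (lt_irrefl _)]
  refine ⟨c', fun i j => ?_⟩
  rw [← mem_AC]
  have hR : ∀ (x : X) (w : ℂ), ((F x).R w)⁻¹ =
      eN (F x).N (-Complex.log w) * ed (F x).δ (-Complex.log w) := by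
    intro x w
    have h3 : eN (F x).N (Complex.log w) * eN (F x).N (-Complex.log w) = 1 :=
      MT100.H27.eN_mul_neg (F x).sys.nil _
    have h4 := MT100D.H64.ed_mul_neg (F x).δ (Complex.log w)
    refine inv_eq_right_inv ?_
    unfold Family.R
    calc ed (F x).δ (Complex.log w) * eN (F x).N (Complex.log w) *
          (eN (F x).N (-Complex.log w) * ed (F x).δ (-Complex.log w)) =
          ed (F x).δ (Complex.log w) * (eN (F x).N (Complex.log w) *
            eN (F x).N (-Complex.log w)) * ed (F x).δ (-Complex.log w) := by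
              simp only [Matrix.mul_assoc]
      _ = 1 := by rw [h3, Matrix.mul_one, h4]
  have e1 : (fun x => (P x * (((F x).R (pt x))⁻¹)ᵀ) i j) =
      ∑ l, (fun x : X => P x i l) * ((fun x => (eN (F x).N (-Complex.log (pt x)) :
        Matrix d d ℂ) j l) * (fun x => Complex.exp (((F x).δ l : ℂ) *
          -Complex.log (pt x)))) := by
    funext n
    rw [Finset.sum_apply, Matrix.mul_apply]
    refine Finset.sum_congr rfl fun l _ => ?_
    rw [Matrix.transpose_apply, hR]
    unfold ed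
    rw [Matrix.mul_diagonal]
    rfl
  rw [e1, map_sum]
  refine sum_mem fun l _ => ?_
  rw [map_mul, map_mul]
  refine mul_mem (algB_mem (n := n) c c' h1 _ ?_) (mul_mem (eN_mem' (fun x => (F x).N) c' h2 j l)
    (exp_mem' hd h0 c' (fun x => (F x).δ l) n.factorial (Nat.factorial_pos n) ?_))
  · filter_upwards [hP] with x hx
    exact hx i l
  · filter_upwards [hn] with x hx
    obtain ⟨t, ht⟩ := Nat.dvd_factorial ((F x).δ l).pos (hx l)
    refine ⟨t * ((F x).δ l).num, ?_⟩
    rw [ht]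
    push_cast
    have h5 := Rat.mul_den_eq_num ((F x).δ l)
    linear_combination (t : ℚ) * h5

end Pool.Agent.PSV.H74
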