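import Pool.Agent.Helper74_PSV.FewU
import Pool.Agent.Helper29_PSV.NMQ
import Pool.Agent.Helper85_PSV.FSQ
import Pool.Agent.Helper1_PSV.VGQ
import Pool.Agent.Helper44_PSV.FSE
import Pool.Agent.Helper72_PSV.PSE
import Pool.Agent.Helper64_PSV.TUE
import Pool.Agent.Helper56_PSV.TRE
import Pool.Agent.Helper32_PSV.SYE
import Pool.Agent.Helper55_PSV.AMQ
import Pool.Agent.Helper21_PSV.GMQ2
import Pool.Agent.Helper81_PSV.GAP
import Pool.Agent.Helper44_PSV.BGP
import Pool.Agent.Helper84_PSV.BNP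
import Pool.Agent.Helper1_PSV.GMP
import Pool.Agent.Helper25_PSV.GTP
import Pool.Agent.Helper45_PSV.VAL
import Pool.Agent.Helper38_PSV.SIP
import Pool.Agent.Helper17_PSV.SAT
import Pool.Agent.Helper38_PSV.SMQ
import Pool.Agent.Helper45_PSV.TPQ
import Pool.Agent.Helper6_PSV.ACE
import Pool.Agent.Helper60_PSV.SZM
import Pool.Agent.Helper13_HIP.FNI
import Pool.Agent.Helper13_HIP.PZD
import Pool.Agent.Helper41_HIP.PZC
import Pool.Agent.Helper40_HIP.SRI
import Pool.Agent.Helper28_HIP.HCI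
import Pool.Agent.Helper67_HIP.EXI
import Pool.Agent.Helper41_HIP.HIZ
import Pool.Agent.Helper41_HIP.ALI
import Pool.Agent.Helper22_HIP.CNI
import Pool.Agent.Helper21_HIP.AVZ
import Pool.Agent.Helper15_HIP.CLI
import Pool.Agent.Helper91_HIP.DET
import Pool.Agent.Helper44_HIP.MNM
import Pool.Agent.Helper17_HIP.HSD
import Pool.Agent.Helper92_HIP.LNV
import Pool.Agent.Helper10_HIP.NRM
import Pool.Agent.Helper84_HIP.EXP
import Pool.Agent.Helper89_PSV.TRA
import Pool.Agent.Helper88_PSV.TRB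
import Pool.Agent.Helper88_PSV.BAE

/-! PSV, N2 uniform: assembly. -/

set_option autoImplicit false

namespace Pool.Agent.PSV.H74

open Pool.Agent.MTN Pool.Agent.MTN.H88 Pool.Agent.HIK Pool.Agent.HIP

universe u v

theorem nmqA : NmqStmt :=
  H29.nmq (H21.gmqS H45.val H25.gtp (H81.gap (H44.bgp H84.bnp H1.gmp) H1.gmp) H38.sip H17.sat)
    (H1.vgq H88.TRB.trb H6.ace)
    (H85.fsq (H44.fse (H88.bae H6.ace H45.val) (H72.pse H64.tue)) (H1.vgq H88.TRB.trb H6.ace) H88.TRB.trb H6.ace H60.szm)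
    H55.amq (H56.tre H89.tra H88.TRB.trb) (H32.sye H25.gtp) H60.szm

theorem codUA : CodUStmt :=
  codU (MTF.H20.cor' MTF.H74.trd) (perU MT100D.H97.bas MT100D.H97.moa (nmu nmqA))
    MTF.H32.nip H6.ace H45.tpq

theorem fniA : FniStmt.{u} :=
  HIP.H13.fni (HIP.H40.sri (HIP.H28.hci (HIP.H67.exi HIP.H41.ali)
    (HIP.H41.hiz (HIP.H22.cni (HIP.H15.cli HIP.H91.det HIP.H44.mnm HIP.H17.hsd HIP.H92.lnv
      HIP.H10.nrm) HIP.H84.exp H52.rtb rtsA sngA) (HIP.H21.avz boxA)) HIP.H41.pzc) dekA gpfA)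

theorem fewUA : FewUStmt.{u, v} :=
  fewU codUA H6.ace H60.szm (H38.smq boxA) MTN.H49.pth boxA HIP.H41.pzc HIP.H13.pzd
    fniA

end Pool.Agent.PSV.H74
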