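import Pool.Agent.Helper74_PSV.FewU
import Pool.Agent.Helper88_PSV.N1z

/-! PSV, N2 uniform: the final form, all number fields at once. -/

set_option autoImplicit false

namespace Pool.Agent.PSV.H74

open Matrix Polynomial NumberField Pool.Agent.MT100 Pool.Agent.MT100G Pool.Agent.MT100A
  Pool.Agent.MT100D Pool.Agent.Helper78_MT Pool.Agent.Helper46_MT Pool.Agent.MTF Pool.Agent.MTL
  Pool.Agent.MTN Pool.Agent.MTN.H53 Pool.Agent.HIK Pool.Agent.HIP Pool.Agent.MT100GO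
  Pool.Agent.MTO.H74

universe u v

/-- the set `T` and the numbers `N ℓ` -/
def TexStmt : Prop :=
  ∀ (d : Type) [Fintype d] [DecidableEq d] (ρ : (ℓ : ℕ) → [Fact ℓ.Prime] → GT →* GL d ℚ_[ℓ]),
    (∀ (ℓ : ℕ) [Fact ℓ.Prime], Continuous (ρ ℓ)) →
    ∃ (T : Set QB) (N : ℕ → ℕ),
      (∃ (Y : ℕ → ℕ → ℝ) (Y' : (k : Type) → [Field k] → [NumberField k] → ℕ → ℝ),
        FewC T (fun _ _ => 1 / 5) Y Y') ∧
      ∀ (ℓ : ℕ) [Fact ℓ.Prime] (x : QB), x ∉ T → (∃ ε : QB →+* ℂ, (N ℓ : ℝ) ≤ ‖ε x‖) →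
      ∀ ρx : HIK.Stab x →* GL d ℚ_[ℓ], SpecializesAt (ρ ℓ) x ρx →
      ∀ (K : Type u) [Field K] [Algebra ℚ_[ℓ] K], monodromy ρx K = monodromy (ρ ℓ) K

theorem tex (hL : HUK.FnaStmt.{u}) (hSpd : HUK.SdaStmt) (hHbc : HUK.HbcStmt) : TexStmt.{u} := by
  classical
  intro d _ _ ρ hρ
  have hex : ∀ ℓ : ℕ, ∃ T : Set QB, HUK.Spa QB (1 / 4) T ∧ ∀ (hℓ : Fact ℓ.Prime), ∀ x ∉ T,
      ∀ ρx : HIK.Stab x →* GL d ℚ_[ℓ], SpecializesAt (ρ ℓ) x ρx →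
        ∀ (K : Type u) [Field K] [Algebra ℚ_[ℓ] K], monodromy ρx K = monodromy (ρ ℓ) K := by
    intro ℓ
    by_cases hℓ : Nat.Prime ℓ
    · have : Fact ℓ.Prime := ⟨hℓ⟩
      obtain ⟨T, hT, h3⟩ := hL d ℓ (ρ ℓ) (hρ ℓ)
      exact ⟨T, hT, fun _ => h3⟩
    · refine ⟨∅, fun m A => ⟨0, fun X _ x _ => ?_⟩, fun h => absurd h.out hℓ⟩
      have h4 : IsEmpty {κ : ℕ // κ < X ∧ x + (κ : QB) ∈ (∅ : Set QB)} :=
        ⟨fun κ => κ.2.2⟩
      rw [Nat.card_of_isEmpty]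
      simp
  choose T0 hT hT1 using hex
  obtain ⟨T, N, hT', hN⟩ := hSpd QB (1 / 4) (1 / 5) (by norm_num) T0 hT
  choose Ct hCt using hT'
  obtain ⟨Y, Y', hY⟩ := H88.fewMk hHbc QB (fun _ _ => 1 / 5) Ct
  have hTF := hY T 1 le_rfl (fun m A X hX x hx => by
    rw [mul_one]
    exact hCt m A X hX x hx)
  refine ⟨T, fun ℓ => N ℓ + 2, ⟨fun m A => Y m A * 1, fun k _ _ A => Y' k A * 1, ?_⟩, ?_⟩
  · simpa only [min_self] using hTF
  intro ℓ hℓ x hx hNx ρx hsp K _ _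
  have hx0 : x ∉ T0 ℓ := fun h => hx (hN ℓ x h fun m hm => by
    obtain ⟨e, he⟩ := hNx
    have h3 := H88.cauA QB e m (N ℓ) x hm
    push_cast at he
    linarith)
  exact hT1 ℓ hℓ x hx0 ρx hsp K

/-- N2X: the final theorem. -/
def FewXStmt : Prop :=
  ∀ (d : Type) [Fintype d] [DecidableEq d] (w : ℕ) (lev : d → ℕ) (m : ℕ),
    Small w lev m (Fintype.card d) →
    (∀ (F : Family d) (P : Matrix d d ℂ) (m₀ : ℕ) (c : Fin m₀ → ℂ) (s : ℂ), IsUnit P.det → s ≠ 0 →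
      (∀ i j, IsAlgebraic (IntermediateField.adjoin ℚ (Set.range c)) (s * P i j)) →
      m₀ + (if F.N = 0 then 0 else 1) ≤ m → ∃ n B : ℕ, Adm n m B F P) ∧
    ∃ a : ℕ → ℕ → ℕ → ℕ,
      (∀ (n e A : ℕ) (F : Family d) (B : ℕ) (P : Matrix d d ℂ), Adm n m B F P →
        ∀ x ∈ MTN.Pts e A, (B : ℝ) ^ a n e A ≤ ‖x‖ →
        ∀ (E : Matrix d d ℚ) (V : ℕ → Submodule ℂ (d → ℂ)),
        FibreC F lev P w x E V → IsoDense (F.Mo P) E →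
        (∀ (K : Type u) [Field K] [CharZero K], mtGroup w V K = simC E K) ∧
        ∀ (ℓ : ℕ) [Fact ℓ.Prime] (Γ : Type v) [Group Γ] (ρ : Γ →* GL d ℚ_[ℓ]), BigMonodromy E ρ →
          ∀ (K : Type u) [Field K] [CharZero K] [Algebra ℚ_[ℓ] K],
            monodromy ρ K = mtGroup w V K) ∧
      ∀ ρ : (ℓ : ℕ) → [Fact ℓ.Prime] → GT →* GL d ℚ_[ℓ],
        (∀ (ℓ : ℕ) [Fact ℓ.Prime], Continuous (ρ ℓ)) →
        ∃ (T : Set QB) (N : ℕ → ℕ),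
          (∃ (Y : ℕ → ℕ → ℝ) (Y' : (k : Type) → [Field k] → [NumberField k] → ℕ → ℝ),
            FewC T (fun _ _ => 1 / 5) Y Y') ∧
          ∀ (n e A : ℕ) (F : Family d) (B : ℕ) (P : Matrix d d ℂ), Adm n m B F P →
          ∀ (ℓ : ℕ) [Fact ℓ.Prime] (x : QB), x ∉ T → ∀ ε : QB →+* ℂ, ε x ∈ MTN.Pts e A →
          (B : ℝ) ^ a n e A ≤ ‖ε x‖ → (N ℓ : ℝ) ≤ ‖ε x‖ →
          ∀ (E : Matrix d d ℚ) (V : ℕ → Submodule ℂ (d → ℂ)),
          FibreC F lev P w (ε x) E V → IsoDense (F.Mo P) E → BigMonodromy E (ρ ℓ) →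
          ∀ ρx : HIK.Stab x →* GL d ℚ_[ℓ], SpecializesAt (ρ ℓ) x ρx →
          ∀ (K : Type u) [Field K] [CharZero K] [Algebra ℚ_[ℓ] K],
            monodromy ρx K = mtGroup w V K

theorem fewX (hcod : CodUStmt) (hAce : AceStmt) (hSzm : SzmStmt) (hTex : TexStmt.{u}) :
    FewXStmt.{u, v} := by
  intro d _ _ w lev m hsm
  refine ⟨fun F P m0 c s hP hs hc hm => exists_adm hSzm F P m0 m c s hP hs hc hm, ?_⟩
  choose a ha using fun n e A => fewU1.{u, v} hcod hAce d w lev m n e A hsm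
  choose a' ha' using fun n e A => fewU1.{u, 0} hcod hAce d w lev m n e A hsm
  refine ⟨fun n e A => max (a n e A) (a' n e A), ?_, ?_⟩
  · intro n e A F B P hadm x hx hxa E V hV hD
    have h1 : (1 : ℝ) ≤ B := by exact_mod_cast (by have := hadm.size.two; omega : 1 ≤ B)
    exact ha n e A F B P hadm x hx ((pow_le_pow_right₀ h1 (le_max_left _ _)).trans hxa) E V hV hD
  · intro ρ hρ
    obtain ⟨T, N, h1, h4⟩ := hTex d ρ hρ
    refine ⟨T, N, h1, ?_⟩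
    intro n e A F B P hadm ℓ _ x hx ε hxP hxa hxN E V hV hD hE ρx hsp K _ _ _
    have hB : (1 : ℝ) ≤ B := by exact_mod_cast (by have := hadm.size.two; omega : 1 ≤ B)
    rw [h4 ℓ x hx ⟨ε, hxN⟩ ρx hsp K]
    exact (ha' n e A F B P hadm (ε x) hxP ((pow_le_pow_right₀ hB (le_max_right _ _)).trans hxa)
      E V hV hD).2 ℓ GT (ρ ℓ) hE K

end Pool.Agent.PSV.H74
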