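import Pool.Agent.Helper74_PSV.All
import Pool.Agent.Helper74_PSV.FewX
import Pool.Agent.Helper88_PSV.AllZ

/-! PSV, N2, final form: assembly. -/

set_option autoImplicit false

namespace Pool.Agent.PSV.H74

open Pool.Agent.MTN Pool.Agent.HIK

universe u v

theorem texA : TexStmt.{u} := tex H88.fnaA HUK.H84.sda HUK.H81.hbc

theorem fewXA : FewXStmt.{u, v} := fewX codUA H6.ace H60.szm texA

end Pool.Agent.PSV.H74
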