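import Pool.Agent.PSV.StmtsS
import Pool.Agent.Helper74_MTN.Per

/-! PSV, N2 uniform: persistence of the rational relations of the scaled value at an algebraic point,
infinitesimally, uniformly in the family. -/

set_option autoImplicit false

namespace Pool.Agent.PSV.H74

open Matrix Polynomial Pool.Agent.MT100 Pool.Agent.MT100G Pool.Agent.MT100A Pool.Agent.MT100D
  Pool.Agent.Helper78_MT Pool.Agent.Helper46_MT Pool.Agent.MTF.H77 Pool.Agent.MTN.H53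
  Pool.Agent.MTN.H74

/-- persistence for one translate, uniform -/
def NmuStmt : Prop :=
  ∀ n : ℕ, ∃ a0 : ℕ, ∀ k m A : ℕ, ∃ a : ℕ, ∀ (d : Type) [Fintype d] [DecidableEq d]
    (F : Family d) (B : ℕ), FSiz n B F → ∀ w ∈ Pts m A, (B : ℝ) ^ a ≤ ‖w‖ →
    ∀ M0 : Set (Matrix d d ℂ), Core (F.mo Set.univ) M0 → PerAt F M0 (B ^ a0) k w

theorem nmu (h : NmqStmt) : NmuStmt := by
  intro n
  obtain ⟨a0, h0⟩ := h n
  refine ⟨a0, fun k m A => ?_⟩
  obtain ⟨a, ha⟩ := h0 1 k m A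
  refine ⟨(a0 + 1) * a, ?_⟩
  intro d _ _ F B hB w hw hwB M0 hM0 c hc g hg
  have h2 : 2 ≤ B := hB.two
  have hle : B ^ a0 ≤ B ^ (a0 + 1) := Nat.pow_le_pow_right (by omega) (Nat.le_succ _)
  have hB1 : B ≤ B ^ (a0 + 1) := by
    calc B = B ^ 1 := (pow_one B).symm
      _ ≤ B ^ (a0 + 1) := Nat.pow_le_pow_right (by omega) (Nat.succ_le_succ (Nat.zero_le _))
  have hSep : Sep (B ^ a0) (fun _ : Unit => B ^ a0) :=
    ⟨fun _ => le_rfl, fun i j hij => absurd (Subsingleton.elim i j) hij⟩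
  exact ha d F B (B ^ (a0 + 1)) hB hB1 Unit (fun _ => B ^ a0) (by simp) hSep (fun _ => hle) M0 hM0
    w hw (by push_cast; rw [← pow_mul]; exact hwB) (fun β α => ((c β α : ℚ) : ℂ))
    (fun β α => (IntermediateField.adjoin ℚ {w}).algebraMap_mem (c β α)) hc (fun _ => g)
    (fun _ => hg)

/-- PER, uniform -/
def PerUStmt : Prop :=
  ∀ n : ℕ, ∃ (a0 : ℕ) (a : ℕ → ℕ → ℕ → ℕ), ∀ (d : Type) [Fintype d] [DecidableEq d]
    (F : Family d) (B : ℕ), FSiz n B F → ∃ t : ℂ → ℂ, (∀ w, t w ≠ 0) ∧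
    ∀ m A e : ℕ, ∀ w ∈ Pts m A, (B : ℝ) ^ a m A e ≤ ‖w‖ →
    ∀ R : MvPolynomial (d × d) ℚ, R.totalDegree ≤ e →
      MvPolynomial.aeval (fun p : d × d =>
        t w * (F.Y (w - (B ^ a0 : ℕ)) * F.R w) p.1 p.2) R = 0 →
      ∀ x ∈ H78.nilP (F.mo Set.univ),
        ∑ p : d × d, MvPolynomial.aeval (fun p : d × d =>
            t w * (F.Y (w - (B ^ a0 : ℕ)) * F.R w) p.1 p.2) (MvPolynomial.pderiv p R) *
            (t w * (F.Y (w - (B ^ a0 : ℕ)) * F.R w * ((F.R w)⁻¹ * x * F.R w)) p.1 p.2) = 0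

theorem perU (hbas : BasDStmt) (hmoa : MoaDStmt) (hnmu : NmuStmt) : PerUStmt := by
  intro n
  obtain ⟨a0, h0⟩ := hnmu n
  choose a ha using h0
  refine ⟨a0, fun m A e => ∑ k ∈ Finset.range (e + 1), a k m A, ?_⟩
  intro d _ _ F B hB
  have ht : ∀ w : ℂ, ∃ t : ℂ, t ≠ 0 ∧ ∀ R : MvPolynomial (d × d) ℚ,
      MvPolynomial.aeval (fun p : d × d => t * (F.Y (w - (B ^ a0 : ℕ)) * F.R w) p.1 p.2) R = 0 →
      ∀ k, MvPolynomial.aeval (fun p : d × d => (F.Y (w - (B ^ a0 : ℕ)) * F.R w) p.1 p.2)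
        (MvPolynomial.homogeneousComponent k R) = 0 := fun w =>
    exists_t fun p : d × d => (F.Y (w - (B ^ a0 : ℕ)) * F.R w) p.1 p.2
  choose t ht0 ht1 using ht
  have hG := mo_isG hbas hmoa F
  obtain ⟨M0, hM0⟩ := exists_core hG
  refine ⟨t, ht0, fun m A e w hw hwR R hRe hR x hx => ?_⟩
  refine per_point F (zclosure ℂ ℂ M0) (B ^ a0) e w (t w) (ht1 w) (fun k hk => ?_) R hRe hR x
    hx.1 (hM0.uni hG hx.1 hx.2)
  refine perAt_closure (ha k m A d F B hB w hw ?_ M0 hM0)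
  refine le_trans ?_ hwR
  have h2 : (1 : ℝ) ≤ B := by exact_mod_cast (by have := hB.two; omega : 1 ≤ B)
  exact pow_le_pow_right₀ h2 (Finset.single_le_sum (f := fun k => a k m A)
    (fun _ _ => Nat.zero_le _) (Finset.mem_range.2 hk))

end Pool.Agent.PSV.H74
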