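import Pool.Agent.Helper74_PSV.Ptw
import Pool.Agent.Helper74_PSV.Per
import Pool.Agent.Helper74_PSV.Alg

/-! PSV, N2 uniform: the codimension bound, uniformly in the family and the rational structure, by an
ultraproduct of families and points. -/

set_option autoImplicit false

namespace Pool.Agent.PSV.H74

open Filter Matrix Module Pool.Agent.Helper78_MT Pool.Agent.Helper46_MT Pool.Agent.MT100
  Pool.Agent.MT100G Pool.Agent.MT100A Pool.Agent.MT100D Pool.Agent.MTF Pool.Agent.MTF.H74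
  Pool.Agent.MTN.H74 Pool.Agent.MT100.H27 Pool.Agent.MT100G.H43

/-- the fundamental matrix is invertible, uniform radius -/
theorem det_YU (hAce : AceStmt) {d : Type} [Fintype d] [DecidableEq d] (n B : ℕ) (F : Family d)
    (hF : FSiz n B F) (w : ℂ) (hw : (B : ℝ) ^ 3 ≤ ‖w‖) : IsUnit (F.Y w).det := by
  have hB2 : (2 : ℝ) ≤ B := by exact_mod_cast hF.two
  have hgH := hF.gH
  have hgK := hF.gK
  obtain ⟨H, K, N, dl, q, Bm, hS⟩ := F
  have hw1 : 2 * (B : ℝ) < ‖w‖ := by nlinarith [mul_pos (by linarith : (0 : ℝ) < B) (by linarith : (0 : ℝ) < B)]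
  have hw0 : 0 < ‖w‖ := by linarith
  have h1 : ‖w⁻¹‖ < 1 / (2 * (B : ℝ)) := by
    rw [norm_inv, one_div]
    exact inv_strictAnti₀ (by linarith) hw1
  have hB1 : 1 ≤ B := by have := hF.two; omega
  have hA : ∀ i j, AC (H i j) w⁻¹ := fun i j => (hAce B (H i j) hB1 (hgH i j) w⁻¹ h1).1
  have hA' : ∀ i j, AC (K i j) w⁻¹ := fun i j => (hAce B (K i j) hB1 (hgK i j) w⁻¹ h1).1
  have hHK : H.map (fun f => evC f w⁻¹) * K.map (fun f => evC f w⁻¹) = 1 := by
    rw [← (ac_mmul hA hA').2, hS.inv]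
    ext i j
    rw [Matrix.map_apply, Matrix.one_apply, Matrix.one_apply]
    by_cases hij : i = j
    · rw [if_pos hij, if_pos hij]
      have := (ac_int 1 w⁻¹).2
      rwa [Int.cast_one, Int.cast_one] at this
    · rw [if_neg hij, if_neg hij]
      have := (ac_int 0 w⁻¹).2
      rwa [Int.cast_zero, Int.cast_zero] at this
  change IsUnit (YD H N dl w).det
  unfold YD YH
  rw [Matrix.det_mul, Matrix.det_mul]
  refine IsUnit.mul (IsUnit.mul ?_ ?_) ?_
  · have := congrArg Matrix.det hHK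
    rw [Matrix.det_mul, Matrix.det_one] at this
    exact IsUnit.of_mul_eq_one _ this
  · have := congrArg Matrix.det (eN_mul_neg N hS.nil (-Complex.log w))
    rw [Matrix.det_mul, Matrix.det_one] at this
    exact IsUnit.of_mul_eq_one _ this
  · unfold ed
    rw [Matrix.det_diagonal, isUnit_iff_ne_zero]
    exact Finset.prod_ne_zero_iff.2 fun i _ => Complex.exp_ne_zero _

/-- COD, uniform in the family and the rational structure -/
def CodUStmt : Prop :=
  ∀ (d : Type) [Fintype d] [DecidableEq d] (w : ℕ) (lev : d → ℕ) (n m e A : ℕ), 1 ≤ w →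
    ∃ a : ℕ, ∀ (F : Family d) (B : ℕ), FSiz n B F → (∀ i, (F.δ i).den ≤ n) →
    ∀ (P : Matrix d d ℂ) (m0 : ℕ) (c : Fin m0 → ℂ), m0 + (if F.N = 0 then 0 else 1) ≤ m →
    IsUnit P.det → (∀ i j, AlgB n c (P i j)) → ∀ x ∈ Pts e A, (B : ℝ) ^ a ≤ ‖x‖ →
    CodAt F w lev P m x

theorem codU (hCor : CorStmt) (hPer : PerUStmt) (hNip : NipStmt) (hAce : AceStmt)
    (hTpq : TpqStmt) : CodUStmt := by
  classical
  intro d _ _ w lev n m e A hw
  by_contra hno
  push Not at hno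
  unfold CodAt at hno
  push Not at hno
  choose F B hB hδ P m0 c hm hP hc x hx hxa E V hV hF I hI hTo X hX hX2 using hno
  obtain ⟨a0, ap, hper'⟩ := hPer n
  choose t ht0 hper using fun j => hper' d (F j) (B j) (hB j)
  -- the ultrafilter
  set φ : Ultrafilter ℕ := hyperfilter ℕ with hφ
  have hat : ∀ a : ℕ, ∀ᶠ j : ℕ in (φ : Filter ℕ), a ≤ j := fun a =>
    (Nat.hyperfilter_le_atTop : (hyperfilter ℕ : Filter ℕ) ≤ atTop) (eventually_ge_atTop a)
  have hB2 : ∀ j, (2 : ℝ) ≤ B j := fun j => by exact_mod_cast (hB j).two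
  have hB1 : ∀ j, (1 : ℝ) ≤ B j := fun j => le_trans (by norm_num) (hB2 j)
  have hbig : ∀ a : ℕ, ∀ᶠ j : ℕ in (φ : Filter ℕ), (B j : ℝ) ^ a ≤ ‖x j‖ := by
    intro a
    filter_upwards [hat a] with j hj
    exact (pow_le_pow_right₀ (hB1 j) hj).trans (hxa j)
  -- the points
  set pt : ℕ → ℂ := fun j => x j + ((B j ^ a0 : ℕ) : ℂ) with hpt
  have hptx : ∀ j, pt j - ((B j ^ a0 : ℕ) : ℂ) = x j := fun j => by
    rw [hpt]
    exact add_sub_cancel_right _ _
  have hbigp : ∀ a : ℕ, ∀ᶠ j : ℕ in (φ : Filter ℕ), (B j : ℝ) ^ a ≤ ‖pt j‖ := by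
    intro a
    filter_upwards [hbig (max a a0 + 1)] with j hj
    have h1 : ‖x j‖ ≤ ‖pt j‖ + (B j : ℝ) ^ a0 := by
      calc ‖x j‖ = ‖pt j - ((B j ^ a0 : ℕ) : ℂ)‖ := by rw [hptx]
        _ ≤ ‖pt j‖ + ‖((B j ^ a0 : ℕ) : ℂ)‖ := norm_sub_le _ _
        _ = ‖pt j‖ + (B j : ℝ) ^ a0 := by rw [Complex.norm_natCast]; push_cast; rfl
    have h2 : (B j : ℝ) ^ a ≤ (B j : ℝ) ^ max a a0 := pow_le_pow_right₀ (hB1 j) (le_max_left _ _)
    have h3 : (B j : ℝ) ^ a0 ≤ (B j : ℝ) ^ max a a0 := pow_le_pow_right₀ (hB1 j) (le_max_right _ _)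
    have h4 : 0 ≤ (B j : ℝ) ^ max a a0 := by positivity
    rw [pow_succ] at hj
    nlinarith [hB2 j]
  have hPts : ∀ᶠ j : ℕ in (φ : Filter ℕ), pt j ∈ Pts e (A + 1) := by
    obtain ⟨aT, hT⟩ := hTpq e A
    filter_upwards [hbig ((a0 + 2) * aT)] with j hj
    have h1 : (((B j ^ a0 + 2 : ℕ) : ℝ)) ^ aT ≤ ‖x j‖ := by
      refine le_trans ?_ hj
      rw [pow_mul]
      refine pow_le_pow_left₀ (by positivity) ?_ _
      push_cast
      have h2 : (1 : ℝ) ≤ (B j : ℝ) ^ a0 := one_le_pow₀ (hB1 j)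
      have h3 : (4 : ℝ) ≤ (B j : ℝ) ^ 2 := by nlinarith [hB2 j]
      rw [pow_add]
      nlinarith
    have h2 := hT (B j ^ a0) (x j) (hx j) h1 ((B j ^ a0 : ℕ) : ℤ) (by
      rw [abs_of_nonneg (Int.natCast_nonneg _)])
    change x j + ((B j ^ a0 : ℕ) : ℂ) ∈ MTN.Pts e (A + 1)
    simpa using h2
  have hdeg : BdDeg φ pt := by
    refine ⟨e, ?_⟩
    filter_upwards [hPts] with j h1
    obtain ⟨f, h2, h3, -, h4⟩ := h1
    exact ⟨f, h2, h3, h4⟩
  have hpt0 : ∀ᶠ j : ℕ in (φ : Filter ℕ), pt j ≠ 0 := by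
    filter_upwards [hbigp 0] with j hj h0
    rw [h0, norm_zero, pow_zero] at hj
    linarith
  -- the number of the constants
  have hm0 : ∀ j, m0 j < m + 1 := fun j => by have := hm j; omega
  obtain ⟨m1, hm1⟩ : ∃ m1 : ℕ, ∀ᶠ j : ℕ in (φ : Filter ℕ), m0 j = m1 := by
    let τ : ℕ → Fin (m + 1) := fun j => ⟨m0 j, hm0 j⟩
    obtain ⟨z, hz⟩ := Ultrafilter.eq_pure_of_finite (φ.map τ)
    refine ⟨z, ?_⟩
    have h1 : {z} ∈ φ.map τ := by rw [hz]; exact Ultrafilter.mem_pure.2 rfl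
    have h2 : ∀ᶠ j : ℕ in (φ : Filter ℕ), τ j = z := h1
    filter_upwards [h2] with j hj
    rw [← hj]
  have hmN : (∀ᶠ j : ℕ in (φ : Filter ℕ), (F j).N = 0) ∨ m1 + 1 ≤ m := by
    rcases φ.em (fun j => (F j).N = 0) with h | h
    · exact Or.inl h
    · refine Or.inr ?_
      obtain ⟨j, h1, h2⟩ := (h.and hm1).exists
      have h3 := hm j
      rw [if_neg h1, h2] at h3
      exact h3
  have hm1m : m1 ≤ m := by
    obtain ⟨j, h2⟩ := hm1.exists
    have h3 := hm j
    omega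
  obtain ⟨c', hc'⟩ := ualU (φ := φ) hdeg hpt0 F P (n := n) (Eventually.of_forall hδ)
    (fun (l : Fin m1) j => if h : (l : ℕ) < m0 j then c j ⟨l, h⟩ else 0) (by
      filter_upwards [hm1] with j hj
      intro i k
      exact (hc j i k).toQ.cast hj) hmN hm1m
  -- the directions
  have hxx : ∀ (k : Fin (m + 1)) j, ∃ y ∈ H78.nilP ((F j).mo Set.univ),
      X j k = P j * yᵀ * (P j)⁻¹ := fun k j => hNip d (F j) (P j) (hP j) _ (hX j k)
  choose xs hxs hBx using hxx
  -- the matrices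
  set U : ℕ → Matrix d d ℂ := fun j => P j * (((F j).R (pt j))⁻¹)ᵀ with hU
  set Yh : ℕ → Matrix d d ℂ := fun j =>
    t j (pt j) • ((F j).Y (pt j - ((B j ^ a0 : ℕ) : ℂ)) * (F j).R (pt j)) with hYh
  set xx : Fin (m + 1) → ℕ → Matrix d d ℂ := fun k j =>
    ((F j).R (pt j))⁻¹ * xs k j * (F j).R (pt j) with hxxd
  set Q : ℕ → Matrix d d ℂ := fun j => U j * (Yh j)ᵀ with hQ
  have hRu : ∀ j, IsUnit ((F j).R (pt j)).det := by
    intro j
    obtain ⟨R', h1, -⟩ := MT100D.H64.r_inv (F j) (pt j)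
    have h2 := congrArg det h1
    rw [det_mul, det_one] at h2
    exact IsUnit.of_mul_eq_one _ h2
  have hUu : ∀ j, IsUnit (U j).det := by
    intro j
    rw [hU]
    simp only
    rw [det_mul, det_transpose]
    exact (hP j).mul (isUnit_nonsing_inv_det _ (hRu j))
  have hdY : ∀ᶠ j : ℕ in (φ : Filter ℕ), IsUnit ((F j).Y (pt j - ((B j ^ a0 : ℕ) : ℂ))).det := by
    filter_upwards [hbig 3] with j hj
    rw [hptx]
    exact det_YU hAce n (B j) (F j) (hB j) _ hj
  have hYu : ∀ᶠ j : ℕ in (φ : Filter ℕ), IsUnit (Yh j).det := by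
    filter_upwards [hdY] with j h2
    rw [hYh]
    simp only
    rw [det_smul, det_mul]
    exact (((isUnit_iff_ne_zero.2 (ht0 j _)).pow _)).mul (h2.mul (hRu j))
  -- the columns of `Q` are the periods
  have hQcol : ∀ᶠ j : ℕ in (φ : Filter ℕ), ByCol lev (Q j) (V j) ∧ IsUnit (Q j).det := by
    filter_upwards [hdY, hYu] with j h2 h3
    have hcol : ∀ a, Q j *ᵥ Pi.single a 1 = t j (pt j) • (F j).per (P j) (x j) a := by
      intro a
      have e1 : Q j = t j (pt j) • (P j * ((F j).Y (x j))ᵀ) := by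
        rw [hQ, hU, hYh]
        simp only
        rw [hptx, transpose_smul, Matrix.mul_smul, transpose_mul, ← Matrix.mul_assoc,
          Matrix.mul_assoc (P j), ← transpose_mul, mul_nonsing_inv _ (hRu j), transpose_one,
          Matrix.mul_one]
      rw [e1, Matrix.smul_mulVec, ← Matrix.mulVec_mulVec, Matrix.mulVec_single_one]
      rfl
    refine ⟨fun p => ?_, ?_⟩
    · have hFp := hF j p
      unfold Fil
      rw [hFp]
      apply le_antisymm
      · rw [Submodule.span_le]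
        rintro _ ⟨a, ha, rfl⟩
        have e2 : (F j).per (P j) (x j) a = (t j (pt j))⁻¹ • (Q j *ᵥ Pi.single a 1) := by
          rw [hcol, smul_smul, inv_mul_cancel₀ (ht0 j _), one_smul]
        rw [SetLike.mem_coe, e2]
        exact Submodule.smul_mem _ _ (Submodule.subset_span ⟨a, ha, rfl⟩)
      · rw [Submodule.span_le]
        rintro _ ⟨a, ha, rfl⟩
        rw [SetLike.mem_coe, hcol]
        exact Submodule.smul_mem _ _ (Submodule.subset_span ⟨a, ha, rfl⟩)
    · change IsUnit (U j * (Yh j)ᵀ).det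
      rw [det_mul, det_transpose]
      exact (hUu j).mul h3
  -- the grading element
  have hgr : ∀ j, ∃ H : Matrix d d ℂ, H ∈ Ul (I j) (E j) ∧
      ∀ p, ∀ x ∈ V j p, H *ᵥ x = ((p : ℂ) - w / 2) • x := by
    intro j
    obtain ⟨π, hπ, h1, h2, h3⟩ := proj_of (hV j)
    have hI' : ∀ z : ℂ, z ≠ 0 → hz w π z ∈ zeros (I j) ℂ := fun z hz0 =>
      hTo j (hz_torus hπ h2 hz0)
    refine ⟨Phi' w π, Phi'_mem hπ hw (hI j) hI', fun p x hx => ?_⟩
    by_cases hp : p ≤ w
    · unfold Phi'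
      rw [Matrix.sub_mulVec, Matrix.smul_mulVec, Matrix.one_mulVec]
      have e1 : Phi w π *ᵥ x = (p : ℂ) • x := by
        unfold Phi
        rw [Matrix.sum_mulVec, Finset.sum_eq_single p]
        · rw [Matrix.smul_mulVec, h2 p x hx]
        · intro q _ hq
          rw [Matrix.smul_mulVec, h3 q p hq x hx, smul_zero]
        · intro hp'
          exact absurd (Finset.mem_range.2 (by omega)) hp'
      rw [e1, ← sub_smul]
    · rw [(hV j).top p (by omega), Submodule.mem_bot] at hx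
      rw [hx, Matrix.mulVec_zero, smul_zero]
  choose H hH using hgr
  -- rational spanning families
  choose Y hY using fun j => rat_span (I j) (E j)
  have hcoef : ∀ j, ∃ h : Fin (Fintype.card d * Fintype.card d) → ℂ,
      H j = ∑ i, h i • (Y j i).map (algebraMap ℚ ℂ) := by
    intro j
    have h1 := (hH j).1
    rw [← hY j] at h1
    obtain ⟨h, hh⟩ := (Submodule.mem_span_range_iff_exists_fun ℂ).1 h1
    exact ⟨h, hh.symm⟩
  choose h hh using hcoef
  have hconj : ∀ᶠ j : ℕ in (φ : Filter ℕ), Q j * ((Q j)⁻¹ * H j * Q j) * (Q j)⁻¹ = H j := by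
    filter_upwards [hQcol] with j h1
    have hu := h1.2
    calc Q j * ((Q j)⁻¹ * H j * Q j) * (Q j)⁻¹
        = (Q j * (Q j)⁻¹) * H j * (Q j * (Q j)⁻¹) := by simp only [Matrix.mul_assoc]
      _ = H j := by rw [mul_nonsing_inv _ hu, Matrix.one_mul, Matrix.mul_one]
  have key := MTN.H74.ger_core (φ := φ) hCor lev w m c' U Yh xx (Eventually.of_forall hUu) hYu hc' (by
      intro k e'
      filter_upwards [hPts, hbigp (ap e (A + 1) e')] with j hnP hn
      intro R hR hR0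
      have h1 := hper j e (A + 1) e' (pt j) hnP hn R hR hR0 (xs k j) (hxs k j)
      rw [← h1]
      refine Finset.sum_congr rfl fun p _ => ?_
      congr 1
      rw [hYh, hxxd]
      simp only
      rw [Matrix.smul_mul, Matrix.smul_apply, smul_eq_mul])
    Q (fun j => (Q j)⁻¹ * H j * Q j) (fun j => rfl) (by
      filter_upwards [hQcol] with j h1
      exact (tri h1.2 h1.1 (hH j).2).1) (by
      filter_upwards [hQcol] with j h1
      exact (tri h1.2 h1.1 (hH j).2).2)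
    (Fintype.card d * Fintype.card d) Y h (by
      filter_upwards [hconj] with j h1
      rw [h1]
      exact hh j) (by
      filter_upwards [hconj] with j h1
      intro i
      rw [h1]
      have h3 : (Y j i).map (algebraMap ℚ ℂ) ∈ Ul (I j) (E j) := by
        rw [← hY j]
        exact Submodule.subset_span ⟨i, rfl⟩
      rw [hY j]
      exact MT100A.H64.Ul_br (hH j).1 h3)
  obtain ⟨j, ⟨l, μ, C, hl, hC, hE⟩, hcolS⟩ := (key.and hQcol).exists
  refine hX2 j l hl ?_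
  have e1 : ∀ k, U j * (xx k j)ᵀ * (U j)⁻¹ = X j k := by
    intro k
    have hUi : (U j)⁻¹ = ((F j).R (pt j))ᵀ * (P j)⁻¹ := by
      refine inv_eq_right_inv ?_
      rw [hU]
      simp only
      calc P j * (((F j).R (pt j))⁻¹)ᵀ * (((F j).R (pt j))ᵀ * (P j)⁻¹)
          = P j * ((((F j).R (pt j))⁻¹)ᵀ * ((F j).R (pt j))ᵀ) * (P j)⁻¹ := by
            simp only [Matrix.mul_assoc]
        _ = 1 := by
          rw [← transpose_mul, mul_nonsing_inv _ (hRu j), transpose_one, Matrix.mul_one,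
            mul_nonsing_inv _ (hP j)]
    rw [hUi, hBx k j, hU, hxxd]
    simp only
    rw [transpose_mul, transpose_mul]
    calc P j * (((F j).R (pt j))⁻¹)ᵀ * (((F j).R (pt j))ᵀ * ((xs k j)ᵀ *
          (((F j).R (pt j))⁻¹)ᵀ)) * (((F j).R (pt j))ᵀ * (P j)⁻¹)
        = P j * ((((F j).R (pt j))⁻¹)ᵀ * ((F j).R (pt j))ᵀ) * (xs k j)ᵀ *
          ((((F j).R (pt j))⁻¹)ᵀ * ((F j).R (pt j))ᵀ) * (P j)⁻¹ := by
            simp only [Matrix.mul_assoc]
      _ = P j * (xs k j)ᵀ * (P j)⁻¹ := by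
        rw [← transpose_mul, mul_nonsing_inv _ (hRu j), transpose_one, Matrix.mul_one,
          Matrix.mul_one]
  rw [Finset.sum_congr rfl fun k _ => by rw [e1 k]] at hE
  rw [hE]
  refine Submodule.add_mem_sup ?_ ?_
  · rw [← hY j]
    exact Submodule.sum_mem _ fun i _ => Submodule.smul_mem _ _ (Submodule.subset_span ⟨i, rfl⟩)
  · exact tri_mem hcolS.2 hcolS.1 hC

end Pool.Agent.PSV.H74
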