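import Pool.Agent.Helper74_PSV.Cod
import Pool.Agent.HIP.Stmts

/-! PSV, N2 uniform: the final theorem. -/

set_option autoImplicit false

namespace Pool.Agent.PSV.H74

open Matrix Polynomial NumberField Pool.Agent.MT100 Pool.Agent.MT100G Pool.Agent.MT100A
  Pool.Agent.MT100D Pool.Agent.Helper78_MT Pool.Agent.Helper46_MT Pool.Agent.MTF Pool.Agent.MTL
  Pool.Agent.MTN Pool.Agent.MTN.H53 Pool.Agent.HIK Pool.Agent.HIP Pool.Agent.MT100GO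
  Pool.Agent.MTO.H74

universe u v

/-- Every family `F` and every rational structure `P` with at most `m` constants is admissible, for some
`n` and `B`. -/
theorem exists_adm (hSzm : SzmStmt) {d : Type} [Fintype d] [DecidableEq d] (F : Family d)
    (P : Matrix d d ℂ) (m0 m : ℕ) (c : Fin m0 → ℂ) (s : ℂ) (hP : IsUnit P.det) (hs : s ≠ 0)
    (hc : ∀ i j, IsAlgebraic (IntermediateField.adjoin ℚ (Set.range c)) (s * P i j))
    (hm : m0 + (if F.N = 0 then 0 else 1) ≤ m) : ∃ n B : ℕ, Adm n m B F P := by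
  classical
  obtain ⟨n1, B, hB⟩ := hSzm.2 d F
  choose n2 hn2 using fun i j => exists_algB c (hc i j)
  let n3 : ℕ := Finset.univ.sup fun i => (F.δ i).den
  let n4 : ℕ := Finset.univ.sup fun i => Finset.univ.sup fun j => n2 i j
  refine ⟨max n1 (max n3 n4), B, ?_, fun i => ?_, hP, m0, c, s, hm, hs, fun i j => ?_⟩
  · exact hSzm.1 d n1 _ B B F.H F.K F.N F.δ F.q F.B (le_max_left _ _) le_rfl hB
  · exact (Finset.le_sup (f := fun i => (F.δ i).den) (Finset.mem_univ i)).trans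
      ((le_max_left _ _).trans (le_max_right _ _))
  · refine (hn2 i j).mono ?_
    have h1 : n2 i j ≤ Finset.univ.sup fun j => n2 i j :=
      Finset.le_sup (f := fun j => n2 i j) (Finset.mem_univ j)
    have h2 : (Finset.univ.sup fun j => n2 i j) ≤ n4 :=
      Finset.le_sup (f := fun i => Finset.univ.sup fun j => n2 i j) (Finset.mem_univ i)
    exact (h1.trans h2).trans ((le_max_right _ _).trans (le_max_right _ _))

/-- Multiplication by a number does not change the number of constants. -/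
theorem codAt_smul {d : Type} [Fintype d] [DecidableEq d] {F : Family d} {w : ℕ} {lev : d → ℕ}
    {P : Matrix d d ℂ} (hP : IsUnit P.det) {m : ℕ} {x : ℂ} {s : ℂ} (hs : s ≠ 0)
    (h : CodAt F w lev (s • P) m x) : CodAt F w lev P m x := by
  intro E V hV hF I hI hT X hX
  refine h E V hV (MTF.H20.hasFil_smul F hs lev P x V hF) I hI hT X (fun j => ?_)
  rw [MTF.H20.Mo_smul F hs hP]
  exact hX j

/-- N2U, part (1): the fibres over all the points `x` of `Pts e A` with `‖x‖ ≥ B ^ a`, `B` the size of the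
family. -/
def FewU1Stmt : Prop :=
  ∀ (d : Type) [Fintype d] [DecidableEq d] (w : ℕ) (lev : d → ℕ) (m n e A : ℕ),
    Small w lev m (Fintype.card d) → ∃ a : ℕ, ∀ (F : Family d) (B : ℕ) (P : Matrix d d ℂ),
    Adm n m B F P →
    ∀ x ∈ MTN.Pts e A, (B : ℝ) ^ a ≤ ‖x‖ → ∀ (E : Matrix d d ℚ) (V : ℕ → Submodule ℂ (d → ℂ)),
      FibreC F lev P w x E V → IsoDense (F.Mo P) E →
      (∀ (K : Type u) [Field K] [CharZero K], mtGroup w V K = simC E K) ∧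
      ∀ (ℓ : ℕ) [Fact ℓ.Prime] (Γ : Type v) [Group Γ] (ρ : Γ →* GL d ℚ_[ℓ]), BigMonodromy E ρ →
        ∀ (K : Type u) [Field K] [CharZero K] [Algebra ℚ_[ℓ] K], monodromy ρ K = mtGroup w V K

theorem fewU1 (hcod : CodUStmt) (hAce : AceStmt) : FewU1Stmt.{u, v} := by
  intro d _ _ w lev m n e A hsm
  have hcase : ∃ a : ℕ, 1 ≤ w → ∀ (F : Family d) (B : ℕ), FSiz n B F → (∀ i, (F.δ i).den ≤ n) →
      ∀ (P : Matrix d d ℂ) (m0 : ℕ) (c : Fin m0 → ℂ), m0 + (if F.N = 0 then 0 else 1) ≤ m →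
      IsUnit P.det → (∀ i j, AlgB n c (P i j)) → ∀ x ∈ MTN.Pts e A, (B : ℝ) ^ a ≤ ‖x‖ →
      CodAt F w lev P m x := by
    by_cases hw : 1 ≤ w
    · obtain ⟨a, ha⟩ := hcod d w lev n m e A hw
      exact ⟨a, fun _ => ha⟩
    · exact ⟨0, fun h => absurd h hw⟩
  obtain ⟨a, ha⟩ := hcase
  refine ⟨max a 3, ?_⟩
  rintro F B P ⟨hB, hδ, hP, m0, c, s, hm0, hs, hc⟩ x hx hxa E V hV hD
  have h1 : (1 : ℝ) ≤ B := by exact_mod_cast (by have := hB.two; omega : 1 ≤ B)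
  have hxa' : (B : ℝ) ^ a ≤ ‖x‖ := (pow_le_pow_right₀ h1 (le_max_left _ _)).trans hxa
  have hx3 : (B : ℝ) ^ 3 ≤ ‖x‖ := (pow_le_pow_right₀ h1 (le_max_right _ _)).trans hxa
  have hdet := det_YU hAce n B F hB x hx3
  have hMT : ∀ (K : Type u) [Field K] [CharZero K], mtGroup w V K = simC E K := fun K _ _ =>
    small_at F w lev P hP m hsm x hdet (fun hw => codAt_smul hP hs (ha hw F B hB hδ (s • P) m0 c
      hm0 (MTF.H20.isUnit_smul hs hP) hc x hx hxa')) E V hV.1 hV.2.2 hD K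
  refine ⟨hMT, ?_⟩
  intro ℓ _ Γ _ ρ hρ K _ _ _
  rw [hMT K]
  exact lad_at w lev m hsm E V hV.1 ℓ Γ ρ hρ K

/-- the integers of a number field with one small conjugate -/
theorem pz_small (hSmq : SmqStmt) (hBox : BoxStmt) (k : Type) [Field k] [NumberField k]
    (σ : k →+* ℂ) : PZ k (1 / 2) {a : 𝓞 k | ‖σ (a : k)‖ < house (a : k) ^ (1 / 2 : ℝ)} := by
  obtain ⟨C, hC⟩ := hSmq.1 k
  refine ⟨2 * C, fun X hX => ?_⟩
  have hX1 : (1 : ℝ) ≤ X := by exact_mod_cast hX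
  have hX0 : (0 : ℝ) < X := by linarith
  have hY : (1 : ℝ) ≤ (X : ℝ) ^ (1 / 2 : ℝ) := Real.one_le_rpow hX1 (by norm_num)
  have hfin : Finite {a : 𝓞 k // ‖σ (a : k)‖ < (X : ℝ) ^ (1 / 2 : ℝ) ∧ house (a : k) ≤ X} := by
    obtain ⟨C', hC'⟩ := hBox k
    refine ((hC' X).1.subset ?_).to_subtype
    intro a ha
    exact ha.2
  have h1 : Nat.card {a : 𝓞 k // a ∈ {a : 𝓞 k | ‖σ (a : k)‖ < house (a : k) ^ (1 / 2 : ℝ)} ∧
      house (a : k) ≤ X} ≤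
      Nat.card {a : 𝓞 k // ‖σ (a : k)‖ < (X : ℝ) ^ (1 / 2 : ℝ) ∧ house (a : k) ≤ X} :=
    Nat.card_le_card_of_injective (fun a => ⟨a.1, lt_of_lt_of_le a.2.1
      (Real.rpow_le_rpow (house_nonneg _) a.2.2 (by norm_num)), a.2.2⟩)
      (fun a b hab => Subtype.ext (by simpa using hab))
  have h2 := hC σ X ((X : ℝ) ^ (1 / 2 : ℝ)) hX (by positivity)
  have hm : 1 ≤ Module.finrank ℚ k := Module.finrank_pos
  calc (Nat.card {a : 𝓞 k // a ∈ {a : 𝓞 k | ‖σ (a : k)‖ < house (a : k) ^ (1 / 2 : ℝ)} ∧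
      house (a : k) ≤ X} : ℝ)
      ≤ C * (X : ℝ) ^ (Module.finrank ℚ k - 1) * ((X : ℝ) ^ (1 / 2 : ℝ) + 1) :=
        le_trans (by exact_mod_cast h1) h2
    _ ≤ C * (X : ℝ) ^ (Module.finrank ℚ k - 1) * (2 * (X : ℝ) ^ (1 / 2 : ℝ)) := by
        refine mul_le_mul_of_nonneg_left (by linarith) (by positivity)
    _ = 2 * C * ((X : ℝ) ^ (Module.finrank ℚ k - 1) * (X : ℝ) ^ (1 / 2 : ℝ)) := by ring
    _ = 2 * C * (X : ℝ) ^ ((Module.finrank ℚ k : ℝ) - 1 / 2) := by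
        rw [← Real.rpow_natCast, ← Real.rpow_add hX0, Nat.cast_sub hm]
        congr 2
        push_cast
        ring

/-- N2U, part (2): the `ℓ`-adic representations, for all the primes. -/
def FewU2Stmt : Prop :=
  ∀ (d : Type) [Fintype d] [DecidableEq d] (w : ℕ) (lev : d → ℕ) (m n : ℕ),
    Small w lev m (Fintype.card d) → ∀ (F : Family d) (B : ℕ) (P : Matrix d d ℂ),
    Adm n m B F P →
    ∀ ρ : (ℓ : ℕ) → [Fact ℓ.Prime] → GT →* GL d ℚ_[ℓ],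
      (∀ (ℓ : ℕ) [Fact ℓ.Prime], Continuous (ρ ℓ)) →
      ∀ (k : Type) [Field k] [NumberField k] (δ : ℝ), δ < 1 / 4 →
      ∃ (T : Set (𝓞 k)) (N : ℕ → ℕ), PZ k δ T ∧ ∀ (ℓ : ℕ) [Fact ℓ.Prime] (a : 𝓞 k),
        a ∉ T → (N ℓ : ℝ) ≤ house (a : k) →
        ∀ (σ : k →+* ℂ) (E : Matrix d d ℚ) (V : ℕ → Submodule ℂ (d → ℂ)),
        FibreC F lev P w (σ a) E V → IsoDense (F.Mo P) E → BigMonodromy E (ρ ℓ) →
        ∀ (ψ : k →+* QB) (ρa : HIK.Stab (ψ a) →* GL d ℚ_[ℓ]), SpecializesAt (ρ ℓ) (ψ a) ρa →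
        ∀ (K : Type u) [Field K] [CharZero K] [Algebra ℚ_[ℓ] K],
          monodromy ρa K = mtGroup w V K

theorem fewU2 (h1 : FewU1Stmt.{u, 0}) (hPth : PthStmt) (hSmq : SmqStmt) (hBox : BoxStmt)
    (hPzc : PzcStmt) (hPzd : PzdStmt) (hFni : FniStmt.{u}) : FewU2Stmt.{u} := by
  intro d _ _ w lev m n hsm F B P hadm ρ hρ k _ _ δ hδ
  obtain ⟨a1, ha1⟩ := h1 d w lev m n (Module.finrank ℚ k) (2 * Module.finrank ℚ k + 2) hsm
  have hR0 := ha1 F B P hadm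
  choose H0 hH0 using fun σ : k →+* ℂ => hPth k σ
  obtain ⟨hsub, huni, hfin, hmono, -⟩ := hPzc k δ
  obtain ⟨H1, hH1⟩ : ∃ H1 : ℕ, (∑ σ : k →+* ℂ, |H0 σ|) + 1 + ((B : ℝ) ^ a1) ^ 2 ≤ H1 :=
    exists_nat_ge _
  have hS1 : ∀ σ : k →+* ℂ, PZ k δ {a : 𝓞 k | ‖σ (a : k)‖ < house (a : k) ^ (1 / 2 : ℝ)} :=
    fun σ => (hPzc k (1 / 2)).2.2.2.1 δ (by linarith) _ (pz_small hSmq hBox k σ)
  have hS2 : PZ k δ {a : 𝓞 k | house (a : k) ≤ H1} := by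
    obtain ⟨C, hC⟩ := hBox k
    exact hfin (by linarith) _ (hC H1).1
  -- the sets for the primes
  have hS3 : ∀ ℓ : ℕ, ∃ S : Set (𝓞 k), PZ k (1 / 4) S ∧ ∀ [Fact ℓ.Prime], ∀ a ∉ S,
      ∀ (ψ : k →+* QB) (ρa : HIK.Stab (ψ a) →* GL d ℚ_[ℓ]), SpecializesAt (ρ ℓ) (ψ a) ρa →
        ∀ (K : Type u) [Field K] [Algebra ℚ_[ℓ] K], monodromy ρa K = monodromy (ρ ℓ) K := by
    intro ℓ
    by_cases hℓ : ℓ.Prime
    · have : Fact ℓ.Prime := ⟨hℓ⟩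
      obtain ⟨S, hS, h2⟩ := hFni k d ℓ (ρ ℓ) (hρ ℓ)
      exact ⟨S, hS, fun a ha ψ ρa h => h2 a ha ψ ρa h⟩
    · refine ⟨∅, (hPzc k (1 / 4)).2.2.1 (by norm_num) _ Set.finite_empty, ?_⟩
      intro h
      exact absurd h.out hℓ
  choose S hS hS' using hS3
  obtain ⟨T, N, hT, hTN⟩ := hPzd k (1 / 4) δ hδ S hS
  refine ⟨T ∪ ((⋃ σ : k →+* ℂ, {a : 𝓞 k | ‖σ (a : k)‖ < house (a : k) ^ (1 / 2 : ℝ)}) ∪
    {a : 𝓞 k | house (a : k) ≤ H1}), N, ?_, ?_⟩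
  · have h3 := huni (Fin 3) (fun i => match i with
      | 0 => T
      | 1 => ⋃ σ : k →+* ℂ, {a : 𝓞 k | ‖σ (a : k)‖ < house (a : k) ^ (1 / 2 : ℝ)}
      | 2 => {a : 𝓞 k | house (a : k) ≤ H1}) (by
        intro i
        match i with
        | 0 => exact hT
        | 1 => exact huni (k →+* ℂ) _ hS1
        | 2 => exact hS2)
    refine hsub _ _ ?_ h3
    rintro a (ha | ha | ha)
    · exact Set.mem_iUnion.2 ⟨0, ha⟩
    · exact Set.mem_iUnion.2 ⟨1, ha⟩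
    · exact Set.mem_iUnion.2 ⟨2, ha⟩
  · intro ℓ _ a ha hN σ E V hV hD hρE ψ ρa hsp K _ _ _
    have ha1 : a ∉ T := fun h => ha (Or.inl h)
    have ha2 : house (a : k) ^ (1 / 2 : ℝ) ≤ ‖σ (a : k)‖ := by
      by_contra h
      exact ha (Or.inr (Or.inl (Set.mem_iUnion.2 ⟨σ, not_le.1 h⟩)))
    have ha3 : (H1 : ℝ) < house (a : k) := by
      by_contra h
      exact ha (Or.inr (Or.inr (not_lt.1 h)))
    have hsum : |H0 σ| ≤ ∑ σ : k →+* ℂ, |H0 σ| :=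
      Finset.single_le_sum (f := fun σ => |H0 σ|) (fun _ _ => abs_nonneg _) (Finset.mem_univ σ)
    have hsq : 0 ≤ ((B : ℝ) ^ a1) ^ 2 := sq_nonneg _
    have h3 : H0 σ ≤ house (a : k) := by
      have := le_abs_self (H0 σ)
      linarith
    have h4 : ((B : ℝ) ^ a1) ^ 2 ≤ house (a : k) := by
      have := abs_nonneg (H0 σ)
      linarith
    have h5 : (B : ℝ) ^ a1 ≤ ‖σ (a : k)‖ := by
      refine le_trans ?_ ha2
      rw [← Real.sqrt_eq_rpow]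
      exact Real.le_sqrt_of_sq_le h4
    have hx := hH0 σ a h3 ha2
    obtain ⟨hMT, hl⟩ := hR0 (σ (a : k)) hx h5 E V hV hD
    rw [hS' ℓ a (fun h => ha1 (hTN ℓ a h hN)) ψ ρa hsp K]
    exact hl ℓ GT (ρ ℓ) hρE K

/-- N2U: the final theorem. -/
def FewUStmt : Prop :=
  ∀ (d : Type) [Fintype d] [DecidableEq d] (w : ℕ) (lev : d → ℕ) (m : ℕ),
    Small w lev m (Fintype.card d) →
    (∀ (F : Family d) (P : Matrix d d ℂ) (m0 : ℕ) (c : Fin m0 → ℂ) (s : ℂ), IsUnit P.det → s ≠ 0 →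
      (∀ i j, IsAlgebraic (IntermediateField.adjoin ℚ (Set.range c)) (s * P i j)) →
      m0 + (if F.N = 0 then 0 else 1) ≤ m → ∃ n B : ℕ, Adm n m B F P) ∧
    (∀ n e A : ℕ, ∃ a : ℕ, ∀ (F : Family d) (B : ℕ) (P : Matrix d d ℂ), Adm n m B F P →
      ∀ x ∈ MTN.Pts e A, (B : ℝ) ^ a ≤ ‖x‖ →
      ∀ (E : Matrix d d ℚ) (V : ℕ → Submodule ℂ (d → ℂ)),
      FibreC F lev P w x E V → IsoDense (F.Mo P) E →
      (∀ (K : Type u) [Field K] [CharZero K], mtGroup w V K = simC E K) ∧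
      ∀ (ℓ : ℕ) [Fact ℓ.Prime] (Γ : Type v) [Group Γ] (ρ : Γ →* GL d ℚ_[ℓ]), BigMonodromy E ρ →
        ∀ (K : Type u) [Field K] [CharZero K] [Algebra ℚ_[ℓ] K],
          monodromy ρ K = mtGroup w V K) ∧
    ∀ (n B : ℕ) (F : Family d) (P : Matrix d d ℂ), Adm n m B F P →
    ∀ ρ : (ℓ : ℕ) → [Fact ℓ.Prime] → GT →* GL d ℚ_[ℓ],
      (∀ (ℓ : ℕ) [Fact ℓ.Prime], Continuous (ρ ℓ)) →
      ∀ (k : Type) [Field k] [NumberField k] (δ : ℝ), δ < 1 / 4 →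
      ∃ (T : Set (𝓞 k)) (N : ℕ → ℕ), PZ k δ T ∧ ∀ (ℓ : ℕ) [Fact ℓ.Prime] (a : 𝓞 k),
        a ∉ T → (N ℓ : ℝ) ≤ house (a : k) →
        ∀ (σ : k →+* ℂ) (E : Matrix d d ℚ) (V : ℕ → Submodule ℂ (d → ℂ)),
        FibreC F lev P w (σ a) E V → IsoDense (F.Mo P) E → BigMonodromy E (ρ ℓ) →
        ∀ (ψ : k →+* QB) (ρa : HIK.Stab (ψ a) →* GL d ℚ_[ℓ]), SpecializesAt (ρ ℓ) (ψ a) ρa →
        ∀ (K : Type u) [Field K] [CharZero K] [Algebra ℚ_[ℓ] K],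
          monodromy ρa K = mtGroup w V K

theorem fewU (hcod : CodUStmt) (hAce : AceStmt) (hSzm : SzmStmt) (hSmq : SmqStmt)
    (hPth : PthStmt) (hBox : BoxStmt) (hPzc : PzcStmt) (hPzd : PzdStmt) (hFni : FniStmt.{u}) :
    FewUStmt.{u, v} := by
  intro d _ _ w lev m hsm
  refine ⟨?_, ?_, ?_⟩
  · intro F P m0 c s hP hs hc hm
    exact exists_adm hSzm F P m0 m c s hP hs hc hm
  · intro n e A
    exact fewU1 hcod hAce d w lev m n e A hsm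
  · intro n B F P hadm
    exact fewU2 (fewU1 hcod hAce) hPth hSmq hBox hPzc hPzd hFni d w lev m n hsm F B P hadm

end Pool.Agent.PSV.H74
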