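import Pool.Agent.Helper74_MTO.All

/-! PSV, N2 uniform: the Mumford-Tate group at one point, from the codimension bound at this point. -/

set_option autoImplicit false

namespace Pool.Agent.PSV.H74

open Matrix Pool.Agent.MT100 Pool.Agent.MT100G Pool.Agent.MT100A Pool.Agent.MT100D
  Pool.Agent.Helper78_MT Pool.Agent.Helper46_MT Pool.Agent.MTF Pool.Agent.MTF.H98
  Pool.Agent.MT100GO Pool.Agent.MTL Pool.Agent.MTO Pool.Agent.MTO.H74

universe u

variable {d : Type} [Fintype d] [DecidableEq d]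

/-- the codimension bound at the point `x` -/
def CodAt (F : Family d) (w : ℕ) (lev : d → ℕ) (P : Matrix d d ℂ) (m : ℕ) (x : ℂ) : Prop :=
  ∀ (E : Matrix d d ℚ) (V : ℕ → Submodule ℂ (d → ℂ)), PolHodge w E V → F.HasFil lev P x V →
    ∀ I : Set (MvPolynomial (d × d) ℚ), IsAlgSubgroup I → hodgeTorus w V ⊆ zeros I ℂ →
    ∀ X : Fin (m + 1) → Matrix d d ℂ, (∀ j, X j ∈ H78.nilP (F.Mo P)) →
      ∃ l : Fin (m + 1) → ℂ, l ≠ 0 ∧ ∑ j, l j • X j ∈ Ul I E ⊔ F0 V

/-- the Hodge numbers at one point -/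
theorem lvd_at (F : Family d) (lev : d → ℕ) (P : Matrix d d ℂ) (hP : IsUnit P.det) (x : ℂ)
    (hx : IsUnit (F.Y x).det) (w : ℕ) (E : Matrix d d ℚ) (V : ℕ → Submodule ℂ (d → ℂ))
    (hH : PolHodge w E V) (hV : F.HasFil lev P x V) (p : ℕ) :
    Module.finrank ℂ (V p) = Fintype.card {a // lev a = p} := by
  have h1 := MTF.H76.finrank_fil F lev P hP x hx V hV p
  have h2 := MTF.H76.finrank_fil F lev P hP x hx V hV (p + 1)
  have hsup : (⨆ p' ∈ Set.Ici p, V p' : Submodule ℂ (d → ℂ)) =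
      V p ⊔ (⨆ p' ∈ Set.Ici (p + 1), V p' : Submodule ℂ (d → ℂ)) := by
    apply le_antisymm
    · refine iSup₂_le fun q hq => ?_
      rcases eq_or_lt_of_le (Set.mem_Ici.mp hq) with h | h
      · rw [← h]
        exact le_sup_left
      · exact le_sup_of_le_right (le_iSup₂_of_le q (Set.mem_Ici.mpr h) le_rfl)
    · refine sup_le (le_iSup₂_of_le p (Set.mem_Ici.mpr le_rfl) le_rfl) ?_
      refine iSup₂_le fun q hq => ?_
      exact le_iSup₂_of_le q (Set.mem_Ici.mpr ((Nat.le_succ p).trans (Set.mem_Ici.mp hq))) le_rfl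
  have hdis : Disjoint (V p) (⨆ p' ∈ Set.Ici (p + 1), V p' : Submodule ℂ (d → ℂ)) := by
    refine (hH.indep p).mono_right ?_
    refine iSup₂_le fun q hq => ?_
    have hne : q ≠ p := by
      have := Set.mem_Ici.mp hq
      omega
    exact le_iSup₂_of_le q hne le_rfl
  have hfr := Submodule.finrank_sup_add_finrank_inf_eq (V p)
    (⨆ p' ∈ Set.Ici (p + 1), V p' : Submodule ℂ (d → ℂ))
  rw [hdis.eq_bot, finrank_bot, ← hsup, h1, h2] at hfr
  have hcard : Fintype.card {a // p ≤ lev a} =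
      Fintype.card {a // lev a = p} + Fintype.card {a // p + 1 ≤ lev a} := by
    rw [← Fintype.card_subtype_or_disjoint]
    · refine Fintype.card_congr (Equiv.subtypeEquivRight fun a => ?_)
      omega
    · rw [Pi.disjoint_iff]
      intro a
      rw [Prop.disjoint_iff]
      omega
  omega

/-- the pairs of Hodge numbers at one point -/
theorem lve_at (F : Family d) (lev : d → ℕ) (P : Matrix d d ℂ) (hP : IsUnit P.det) (x : ℂ)
    (hx : IsUnit (F.Y x).det) (w : ℕ) (E : Matrix d d ℚ) (V : ℕ → Submodule ℂ (d → ℂ))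
    (hH : PolHodge w E V) (hV : F.HasFil lev P x V) (p : ℕ) :
    Module.finrank ℂ ↥(V p ⊔ V (w - p)) = Fintype.card {a // lev a = p ∨ lev a = w - p} := by
  classical
  have hl := lvd_at F lev P hP x hx w E V hH hV
  by_cases h : w - p = p
  · rw [h, sup_idem, hl p]
    simp only [or_self]
  · have hdis : Disjoint (V p) (V (w - p)) :=
      (hH.indep p).mono_right (le_iSup₂_of_le (w - p) h le_rfl)
    have h1 := Submodule.finrank_sup_add_finrank_inf_eq (V p) (V (w - p))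
    rw [hdis.eq_bot, finrank_bot, add_zero, hl p, hl (w - p)] at h1
    rw [h1]
    have h2 : Disjoint (fun a => lev a = p) (fun a => lev a = w - p) := by
      rw [Pi.disjoint_iff]
      intro a
      rw [Prop.disjoint_iff]
      rintro ⟨h3, h4⟩
      exact h (h4.symm.trans h3)
    exact (Fintype.card_subtype_or_disjoint _ _ h2).symm

/-- odd weight -/
theorem odd_at (F : Family d) (w : ℕ) (lev : d → ℕ) (hw : Odd w) (P : Matrix d d ℂ)
    (hP : IsUnit P.det) (m κ : ℕ) (hκ : ∀ p, Fintype.card {a // lev a = p} ≤ κ)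
    (hlt : m + 1 + κ < Fintype.card d) (x : ℂ) (hx : IsUnit (F.Y x).det)
    (hcod : CodAt F w lev P m x) (E : Matrix d d ℚ) (V : ℕ → Submodule ℂ (d → ℂ))
    (hV : PolHodge w E V) (hfil : F.HasFil lev P x V) (hD : SpDense (F.Mo P) E)
    (K : Type u) [Field K] [CharZero K] : mtGroup w V K = similitudes E K := by
  have hE := det_ne hV
  have hEs : Eᵀ = -E := by
    have := hV.symm
    rwa [Odd.neg_one_pow hw, neg_one_smul] at this
  refine MTF.H42.gsp.{u} d w E V hw hV (fun I hG hI X hX => ?_) K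
  have hL := MTF.H20.hls d w E V hw hV I hG hI
  have hfr : ∀ p, Module.finrank ℂ (V p) ≤ κ := by
    intro p
    rw [lvd_at F lev P hP x hx w E V hV hfil p]
    exact hκ p
  have hdep : Dep (E.map (algebraMap ℚ ℂ)) V (Ul I E) m := by
    refine MTF.H90.spn d (E.map (algebraMap ℚ ℂ)) (skew_map hEs) (det_map hE) (Ul I E ⊔ F0 V) m ?_
    intro Y hY
    refine hcod E V hV hfil I hG hI Y (fun j => ?_)
    refine ⟨(hY j).2, fun s => hD _ ?_⟩
    exact ue_form (hY j).1 (hY j).2 s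
  exact MTF.H20.cdl' MTF.H74.crd d w (E.map (algebraMap ℚ ℂ)) V (Ul I E) hL κ m hfr hlt hdep hX

/-- even weight -/
theorem even_at (F : Family d) (w : ℕ) (lev : d → ℕ) (hw : Even w) (P : Matrix d d ℂ)
    (hP : IsUnit P.det) (m κ : ℕ)
    (hκ : ∀ p ≤ w, Fintype.card {a // lev a = p ∨ lev a = w - p} ≤ κ)
    (h3 : 3 ≤ Fintype.card d) (hlt : 2 * m + κ < Fintype.card d) (x : ℂ)
    (hx : IsUnit (F.Y x).det) (hcod : 1 ≤ w → CodAt F w lev P m x) (E : Matrix d d ℚ)
    (V : ℕ → Submodule ℂ (d → ℂ)) (hV : PolHodge w E V) (hfil : F.HasFil lev P x V)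
    (hD : SoDense (F.Mo P) E) (K : Type u) [Field K] [CharZero K] :
    mtGroup w V K = simO E K := by
  have hfr : ∀ p ≤ w, Module.finrank ℂ ↥(V p ⊔ V (w - p)) ≤ κ := by
    intro p hp
    rw [lve_at F lev P hP x hx w E V hV hfil p]
    exact hκ p hp
  rcases Nat.eq_zero_or_pos w with rfl | hw1
  · exfalso
    have hk := hfr 0 le_rfl
    have hV0 : V 0 = ⊤ := by
      rw [eq_top_iff, ← hV.span]
      refine iSup_le fun p => ?_
      rcases Nat.eq_zero_or_pos p with rfl | hp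
      · exact le_rfl
      · rw [hV.top p hp]
        exact bot_le
    have h4 : (V 0 ⊔ V (0 - 0) : Submodule ℂ (d → ℂ)) = ⊤ := by
      rw [hV0, top_sup_eq]
    rw [h4, finrank_top, Module.finrank_fintype_fun_eq_card] at hk
    omega
  · have hE := det_ne hV
    have hEs : Eᵀ = E := by
      have := hV.symm
      rwa [hw.neg_one_pow, one_smul] at this
    have hEC : (E.map (algebraMap ℚ ℂ))ᵀ = E.map (algebraMap ℚ ℂ) := by
      rw [← transpose_map, hEs]
    refine H81.gso d w E V hw hw1 (by omega) hV (fun I hG hI X hX => ?_) K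
    have hL := H81.hle d w E V hw hw1 hV I hG hI
    have hdep : Dep (E.map (algebraMap ℚ ℂ)) V (Ul I E) m := by
      refine H46.sne wed d (E.map (algebraMap ℚ ℂ)) hEC (det_map hE) h3 (Ul I E ⊔ F0 V) m ?_
      intro Y hY
      refine hcod hw1 E V hV hfil I hG hI Y (fun j => ?_)
      refine ⟨(hY j).2, fun s => hD _ ?_ (H25.det_ue (hY j).2 s)⟩
      exact ue_form (hY j).1 (hY j).2 s
    exact cdeA d w (E.map (algebraMap ℚ ℂ)) V (Ul I E) hL κ m hfr hlt hdep hX

/-- both parities -/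
theorem small_at (F : Family d) (w : ℕ) (lev : d → ℕ) (P : Matrix d d ℂ) (hP : IsUnit P.det)
    (m : ℕ) (hm : Small w lev m (Fintype.card d)) (x : ℂ) (hx : IsUnit (F.Y x).det)
    (hcod : 1 ≤ w → CodAt F w lev P m x) (E : Matrix d d ℚ) (V : ℕ → Submodule ℂ (d → ℂ))
    (hV : PolHodge w E V) (hfil : F.HasFil lev P x V) (hD : IsoDense (F.Mo P) E)
    (K : Type u) [Field K] [CharZero K] : mtGroup w V K = simC E K := by
  obtain ⟨κ, ⟨hw, hκ, hlt⟩ | ⟨hw, hκ, h5, hlt⟩⟩ := hm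
  · have hne := ne_of_odd hw hV (by omega)
    rw [simC_odd hne K]
    exact odd_at F w lev hw P hP m κ hκ hlt x hx (hcod hw.pos) E V hV hfil (iso_odd hne hD) K
  · have hsy := H20.symE hw hV
    rw [simC_even hsy K]
    refine even_at F w lev hw P hP m κ (fun p hp => ?_) (by omega) hlt x hx hcod E V hV hfil
      (iso_even hsy hD) K
    refine le_trans (le_of_eq ?_) (hκ p)
    refine Fintype.card_congr (Equiv.subtypeEquivRight fun a => ?_)
    omega

/-- the `ℓ`-adic side -/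
theorem lad_at (w : ℕ) (lev : d → ℕ) (m : ℕ) (hm : Small w lev m (Fintype.card d))
    (E : Matrix d d ℚ) (V : ℕ → Submodule ℂ (d → ℂ)) (hV : PolHodge w E V) (ℓ : ℕ)
    [Fact ℓ.Prime] (Γ : Type*) [Group Γ] (ρ : Γ →* GL d ℚ_[ℓ]) (hρ : BigMonodromy E ρ)
    (K : Type u) [Field K] [CharZero K] [Algebra ℚ_[ℓ] K] : monodromy ρ K = simC E K := by
  obtain ⟨κ, ⟨hw, hκ, hlt⟩ | ⟨hw, hκ, h5, hlt⟩⟩ := hm
  · have hne := ne_of_odd hw hV (by omega)
    have hsym : Eᵀ = -E := by
      rw [hV.symm, hw.neg_one_pow, neg_smul, one_smul]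
    rw [simC_odd hne K]
    exact MT100G.H97.lad' d E ℚ_[ℓ] Γ ρ hsym hV.nondeg (MTF.H20.two_lt_card lev hκ hlt) hρ K
  · have hsy := H20.symE hw hV
    rw [simC_even hsy K]
    exact lad_all d E ℚ_[ℓ] Γ ρ hsy hV.nondeg h5 hρ K

end Pool.Agent.PSV.H74
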